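import Mathlib.Algebra.Algebra.Rat
import Mathlib.LinearAlgebra.Matrix.SpecialLinearGroup
import Mathlib.Algebra.Order.Archimedean.Real.Basic
import Mathlib.Data.Complex.Basic
import Mathlib.Tactic.Polynomial.Basic

/-!
Definitions for the counterexample in the space of unimodular lattices of rank four.
-/

open Matrix

namespace Pool.Agent.MP_e7dd50_an

/-- The subgroup `SL(4, ℤ)` of `SL(4, ℝ)`. -/
def intPoints : Subgroup (Matrix.SpecialLinearGroup (Fin 4) ℝ) :=
  (Matrix.SpecialLinearGroup.map (Int.castRingHom ℝ)).range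

/-- The group of diagonal matrices in `SL(4, ℝ)` with positive diagonal entries. -/
def posDiag : Subgroup (Matrix.SpecialLinearGroup (Fin 4) ℝ) where
  carrier := {g | ∃ a : Fin 4 → ℝ, (∀ i, 0 < a i) ∧ (g : Matrix (Fin 4) (Fin 4) ℝ) = Matrix.diagonal a}
  one_mem' := ⟨fun _ => 1, fun _ => one_pos, by simp⟩
  mul_mem' := by
    rintro g h ⟨a, ha, hg⟩ ⟨b, hb, hh⟩
    refine ⟨fun i => a i * b i, fun i => mul_pos (ha i) (hb i), ?_⟩
    rw [Matrix.SpecialLinearGroup.coe_mul, hg, hh, Matrix.diagonal_mul_diagonal]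
  inv_mem' := by
    rintro g ⟨a, ha, hg⟩
    refine ⟨fun i => (a i)⁻¹, fun i => inv_pos.2 (ha i), ?_⟩
    have h1 : (g : Matrix (Fin 4) (Fin 4) ℝ) *
        ((g⁻¹ : Matrix.SpecialLinearGroup (Fin 4) ℝ) : Matrix (Fin 4) (Fin 4) ℝ) = 1 := by
      rw [← Matrix.SpecialLinearGroup.coe_mul, mul_inv_cancel, Matrix.SpecialLinearGroup.coe_one]
    have h2 : Matrix.diagonal (fun i => (a i)⁻¹) * (g : Matrix (Fin 4) (Fin 4) ℝ) = 1 := by
      rw [hg, Matrix.diagonal_mul_diagonal, ← Matrix.diagonal_one]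
      congr 1
      funext i
      exact inv_mul_cancel₀ (ha i).ne'
    rw [← one_mul ((g⁻¹ : Matrix.SpecialLinearGroup (Fin 4) ℝ) : Matrix (Fin 4) (Fin 4) ℝ), ← h2,
      mul_assoc, h1, mul_one]

/-- A `ℚ`-subgroup of `SL(4)`, given by its complex points: a subgroup of `SL(4, ℂ)` that is the
common zero set of a family of polynomials with rational coefficients in the matrix entries. -/
def IsQSubgroup (L : Subgroup (Matrix.SpecialLinearGroup (Fin 4) ℂ)) : Prop :=
  ∃ S : Set (MvPolynomial (Fin 4 × Fin 4) ℚ), ∀ g : Matrix.SpecialLinearGroup (Fin 4) ℂ,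
    g ∈ L ↔ ∀ p ∈ S, MvPolynomial.aeval (fun ij : Fin 4 × Fin 4 => g ij.1 ij.2) p = 0

/-- The inclusion `SL(4, ℝ) → SL(4, ℂ)`. -/
noncomputable def toComplex : Matrix.SpecialLinearGroup (Fin 4) ℝ →* Matrix.SpecialLinearGroup (Fin 4) ℂ :=
  Matrix.SpecialLinearGroup.map Complex.ofRealHom

/-- The real points `L(ℝ)` of a subgroup `L` of `SL(4, ℂ)`. -/
noncomputable def realPoints (L : Subgroup (Matrix.SpecialLinearGroup (Fin 4) ℂ)) :
    Subgroup (Matrix.SpecialLinearGroup (Fin 4) ℝ) :=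
  L.comap toComplex

end Pool.Agent.MP_e7dd50_an
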