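import Mathlib.Topology.Sheaves.Presheaf
import Mathlib.Tactic.Monotonicity.Lemmas
import Mathlib.Algebra.Order.Ring.Star
import Mathlib.Algebra.Module.ZLattice.Basic
import Mathlib.Algebra.Order.Star.Real
import Mathlib.Analysis.CStarAlgebra.Classes
import Mathlib.Topology.Algebra.Group.Matrix
import Mathlib.Combinatorics.SimpleGraph.Basic
import Mathlib.RingTheory.PiTensorProduct
import Mathlib.MeasureTheory.Group.GeometryOfNumbers
import Mathlib.MeasureTheory.Order.Group.Lattice
import Mathlib.Topology.Baire.LocallyCompactRegular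
import Mathlib.RingTheory.SimpleRing.Principal
import Mathlib.NumberTheory.Transcendental.Liouville.LiouvilleNumber
import Mathlib.Topology.Algebra.MvPolynomial
import Mathlib.Topology.UniformSpace.Uniformizable
import Pool.Agent.MP_e7dd50_an.Defs

-- ======== part 0: formerly Pool.Agent.MP_e7dd50_an.Gen
section MrgPart0

/-!
Generation of special linear groups by transvections, and the embedding `kap`.
-/

open Matrix

namespace Pool.Agent.MP_e7dd50_an

open Matrix.SpecialLinearGroup

section general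

variable {ι F : Type*} [DecidableEq ι] [Fintype ι] [Field F]

lemma diag2n_decompose {i j : ι} (hij : i ≠ j) (a : F) (ha : a ≠ 0) :
    diag2n hij a ha = transvection hij a * transvection hij.symm (- a⁻¹) *
      transvection hij a * transvection hij (-1) * transvection hij.symm 1 *
      transvection hij (-1) := by
  apply Subtype.ext
  simp only [Matrix.SpecialLinearGroup.coe_mul, transvection_coe, diag2n_coe, mul_add, add_mul,
    one_mul, mul_one, single_mul_single_same, single_mul_single_of_ne _ _ _ _ hij,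
    single_mul_single_of_ne _ _ _ _ hij.symm, add_zero, zero_mul, mul_zero]
  ext k l
  simp only [Matrix.add_apply, single_apply, diagonal_apply, one_apply]
  by_cases hki : k = i
  · subst hki
    by_cases hl : l = k
    · subst hl
      simp [hij, hij.symm]
      field_simp
      ring
    · by_cases hlj : l = j
      · subst hlj
        simp [hij, hij.symm]
        field_simp
        ring
      · simp [hij, hij.symm, hl, hlj, Ne.symm hl, Ne.symm hlj]
  · by_cases hkj : k = j
    · subst hkj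
      by_cases hl : l = k
      · subst hl
        simp [hij, hij.symm, inv_mul_cancel₀ ha]
      · by_cases hli : l = i
        · subst hli
          simp [hij, hij.symm, inv_mul_cancel₀ ha]
        · simp [hij, hij.symm, hl, hli, Ne.symm hl, Ne.symm hli]
    · simp [hki, hkj, Ne.symm hki, Ne.symm hkj]

/-- A subgroup containing all transvections is everything. -/
lemma eq_top_of_transvection [Nontrivial ι] (H : Subgroup (Matrix.SpecialLinearGroup ι F))
    (h : ∀ (i j : ι) (hij : i ≠ j) (c : F), transvection hij c ∈ H) : H = ⊤ := by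
  rw [eq_top_iff]
  intro M _
  refine diagonal_transvection_induction' (fun M => M ∈ H) M ?_ h (fun A B => H.mul_mem)
  intro i j hij c hc
  rw [diag2n_decompose]
  refine H.mul_mem (H.mul_mem (H.mul_mem (H.mul_mem (H.mul_mem ?_ ?_) ?_) ?_) ?_) ?_ <;>
    exact h _ _ _ _

lemma transvection_commutator {i j k : ι} (hij : i ≠ j) (hjk : j ≠ k) (hik : i ≠ k) (c : F) :
    transvection hik c = transvection hij c * transvection hjk 1 * transvection hij (-c) *
      transvection hjk (-1) := by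
  apply Subtype.ext
  simp only [Matrix.SpecialLinearGroup.coe_mul, transvection_coe, mul_add, add_mul,
    one_mul, mul_one, single_mul_single_same, single_mul_single_of_ne _ _ _ _ hij.symm,
    single_mul_single_of_ne _ _ _ _ hik.symm, single_mul_single_of_ne _ _ _ _ hjk.symm,
    add_zero, zero_mul, mul_zero]
  ext a b
  simp only [Matrix.add_apply, single_apply]
  split_ifs <;> ring

end general

section kap

variable {R : Type*} [CommRing R]

/-- The embedding of `SL(2)` in `SL(4)` sending `(p q; r s)` to the block matrix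
`(p I, q P; r P⁻¹, s I)` with `P = (1 1; 1 2)`. -/
def kap : Matrix.SpecialLinearGroup (Fin 2) R →* Matrix.SpecialLinearGroup (Fin 4) R where
  toFun m := ⟨!![m 0 0, 0, m 0 1, m 0 1; 0, m 0 0, m 0 1, 2 * m 0 1;
      2 * m 1 0, - m 1 0, m 1 1, 0; - m 1 0, m 1 0, 0, m 1 1], by
    have h := m.det_coe
    rw [Matrix.det_fin_two] at h
    simp [Matrix.det_succ_row_zero, Fin.sum_univ_succ, Fin.succAbove]
    linear_combination (m 0 0 * m 1 1 - m 0 1 * m 1 0 + 1) * h⟩
  map_one' := by
    apply Subtype.ext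
    ext i j
    fin_cases i <;> fin_cases j <;> simp
  map_mul' m n := by
    apply Subtype.ext
    ext i j
    fin_cases i <;> fin_cases j <;>
      simp [Matrix.mul_apply, Fin.sum_univ_succ] <;> ring

lemma kap_coe (m : Matrix.SpecialLinearGroup (Fin 2) R) :
    ((kap m : Matrix.SpecialLinearGroup (Fin 4) R) : Matrix (Fin 4) (Fin 4) R) =
      !![m 0 0, 0, m 0 1, m 0 1; 0, m 0 0, m 0 1, 2 * m 0 1;
      2 * m 1 0, - m 1 0, m 1 1, 0; - m 1 0, m 1 0, 0, m 1 1] := rfl

lemma kap_map {S : Type*} [CommRing S] (f : R →+* S) (m : Matrix.SpecialLinearGroup (Fin 2) R) :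
    kap (Matrix.SpecialLinearGroup.map f m) = Matrix.SpecialLinearGroup.map f (kap m) := by
  apply Subtype.ext
  ext i j
  fin_cases i <;> fin_cases j <;> simp [kap_coe, map_ofNat]

/-- Upper block unipotent matrices. -/
def up (a b c d : R) : Matrix.SpecialLinearGroup (Fin 4) R :=
  ⟨!![1, 0, a, b; 0, 1, c, d; 0, 0, 1, 0; 0, 0, 0, 1], by
    simp [Matrix.det_succ_row_zero, Fin.sum_univ_succ, Fin.succAbove]⟩

/-- Lower block unipotent matrices. -/
def low (a b c d : R) : Matrix.SpecialLinearGroup (Fin 4) R :=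
  ⟨!![1, 0, 0, 0; 0, 1, 0, 0; a, b, 1, 0; c, d, 0, 1], by
    simp [Matrix.det_succ_row_zero, Fin.sum_univ_succ, Fin.succAbove]⟩

lemma up_mul (a b c d a' b' c' d' : R) :
    up a b c d * up a' b' c' d' = up (a + a') (b + b') (c + c') (d + d') := by
  apply Subtype.ext
  ext i j
  fin_cases i <;> fin_cases j <;> simp [up, Matrix.mul_apply, Fin.sum_univ_succ] <;> ring

lemma low_mul (a b c d a' b' c' d' : R) :
    low a b c d * low a' b' c' d' = low (a + a') (b + b') (c + c') (d + d') := by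
  apply Subtype.ext
  ext i j
  fin_cases i <;> fin_cases j <;> simp [low, Matrix.mul_apply, Fin.sum_univ_succ] <;> ring

end kap

/-- A diagonal element. -/
noncomputable def dg (x y z : ℝ) : Matrix.SpecialLinearGroup (Fin 4) ℝ :=
  ⟨Matrix.diagonal ![Real.exp x, Real.exp y, Real.exp z, Real.exp (-(x + y + z))], by
    simp [Fin.prod_univ_four, ← Real.exp_add]⟩

lemma dg_mem (x y z : ℝ) : dg x y z ∈ posDiag :=
  ⟨_, fun i => by fin_cases i <;> simp [Real.exp_pos], rfl⟩

lemma dg_add (x y z x' y' z' : ℝ) : dg (x + x') (y + y') (z + z') = dg x y z * dg x' y' z' := by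
  apply Subtype.ext
  simp only [dg, Matrix.SpecialLinearGroup.coe_mul, diagonal_mul_diagonal]
  congr 1
  funext i
  fin_cases i <;> simp [← Real.exp_add]
  ring

lemma exists_dg {g : Matrix.SpecialLinearGroup (Fin 4) ℝ} (hg : g ∈ posDiag) :
    ∃ x y z, g = dg x y z := by
  obtain ⟨a, ha, hga⟩ := hg
  have hdet := g.det_coe
  rw [hga, det_diagonal, Fin.prod_univ_four] at hdet
  refine ⟨Real.log (a 0), Real.log (a 1), Real.log (a 2), Subtype.ext ?_⟩
  rw [hga]
  simp only [dg]
  congr 1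
  funext i
  fin_cases i
  · simp [Real.exp_log (ha _)]
  · simp [Real.exp_log (ha _)]
  · simp [Real.exp_log (ha _)]
  · simp only [Real.exp_neg, Real.exp_add, Real.exp_log (ha _)]
    have h0 := (ha 0).ne'
    have h1 := (ha 1).ne'
    have h2 := (ha 2).ne'
    change a 3 = (a 0 * a 1 * a 2)⁻¹
    field_simp
    linear_combination hdet

lemma dg_conj_up (x y z a b c d : ℝ) :
    dg x y z * up a b c d * dg (-x) (-y) (-z) =
      up (Real.exp (x - z) * a) (Real.exp (x + (x + y + z)) * b) (Real.exp (y - z) * c)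
        (Real.exp (y + (x + y + z)) * d) := by
  apply Subtype.ext
  ext i j
  fin_cases i <;> fin_cases j <;>
    simp [up, dg, Matrix.mul_apply, Fin.sum_univ_succ, Matrix.diagonal_apply, ← Real.exp_add,
      Real.exp_sub, Real.exp_neg] <;>
    first | ring1 | ((try simp only [Real.exp_add, Real.exp_neg]); field_simp)

lemma dg_conj_low (x y z a b c d : ℝ) :
    dg x y z * low a b c d * dg (-x) (-y) (-z) =
      low (Real.exp (z - x) * a) (Real.exp (z - y) * b) (Real.exp (-(x + y + z) - x) * c)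
        (Real.exp (-(x + y + z) - y) * d) := by
  apply Subtype.ext
  ext i j
  fin_cases i <;> fin_cases j <;>
    simp [low, dg, Matrix.mul_apply, Fin.sum_univ_succ, Matrix.diagonal_apply, ← Real.exp_add,
      Real.exp_sub, Real.exp_neg] <;>
    first | ring1 | ((try simp only [Real.exp_add, Real.exp_neg]); field_simp)

lemma dg_neg_mem {H : Subgroup (Matrix.SpecialLinearGroup (Fin 4) ℝ)} (hA : posDiag ≤ H)
    {g : Matrix.SpecialLinearGroup (Fin 4) ℝ} (hg : g ∈ H) (x y z : ℝ) :
    dg x y z * g * dg (-x) (-y) (-z) ∈ H :=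
  H.mul_mem (H.mul_mem (hA (dg_mem _ _ _)) hg) (hA (dg_mem _ _ _))

lemma exp_log2 : Real.exp (Real.log 2) = 2 := Real.exp_log two_pos

lemma exp_neg_log2 : Real.exp (-Real.log 2) = 2⁻¹ := by rw [Real.exp_neg, exp_log2]

section split

variable {H : Subgroup (Matrix.SpecialLinearGroup (Fin 4) ℝ)}

lemma up_row (hA : posDiag ≤ H) {a b c d : ℝ}
    (h : ∀ t : ℝ, up (t * a) (t * b) (t * c) (t * d) ∈ H) :
    (∀ t : ℝ, up (t * a) (t * b) (t * 0) (t * 0) ∈ H) ∧
      ∀ t : ℝ, up (t * 0) (t * 0) (t * c) (t * d) ∈ H := by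
  have h1 : ∀ t : ℝ, up (t * a) (t * b) (t * 0) (t * 0) ∈ H := by
    intro t
    have h2 := dg_neg_mem hA (h (2 / 3 * t)) (Real.log 2) (-Real.log 2) 0
    rw [dg_conj_up] at h2
    have h3 := H.mul_mem h2 (h (-(1 / 3) * t))
    rw [up_mul] at h3
    simp only [sub_zero, add_neg_cancel, add_zero, exp_log2, exp_neg_log2] at h3
    convert h3 using 2 <;> ring
  refine ⟨h1, fun t => ?_⟩
  have h3 := H.mul_mem (h t) (h1 (-t))
  rw [up_mul] at h3
  convert h3 using 2 <;> ring

lemma up_col (hA : posDiag ≤ H) {a b c d : ℝ}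
    (h : ∀ t : ℝ, up (t * a) (t * b) (t * c) (t * d) ∈ H) :
    (∀ t : ℝ, up (t * a) (t * 0) (t * c) (t * 0) ∈ H) ∧
      ∀ t : ℝ, up (t * 0) (t * b) (t * 0) (t * d) ∈ H := by
  have h1 : ∀ t : ℝ, up (t * a) (t * 0) (t * c) (t * 0) ∈ H := by
    intro t
    have h2 := dg_neg_mem hA (h (2 / 3 * t)) 0 0 (-Real.log 2)
    rw [dg_conj_up] at h2
    have h3 := H.mul_mem h2 (h (-(1 / 3) * t))
    rw [up_mul] at h3
    simp only [zero_sub, neg_neg, zero_add, add_zero, exp_log2, exp_neg_log2] at h3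
    convert h3 using 2 <;> ring
  refine ⟨h1, fun t => ?_⟩
  have h3 := H.mul_mem (h t) (h1 (-t))
  rw [up_mul] at h3
  convert h3 using 2 <;> ring

lemma low_row (hA : posDiag ≤ H) {a b c d : ℝ}
    (h : ∀ t : ℝ, low (t * a) (t * b) (t * c) (t * d) ∈ H) :
    (∀ t : ℝ, low (t * a) (t * b) (t * 0) (t * 0) ∈ H) ∧
      ∀ t : ℝ, low (t * 0) (t * 0) (t * c) (t * d) ∈ H := by
  have h1 : ∀ t : ℝ, low (t * a) (t * b) (t * 0) (t * 0) ∈ H := by
    intro t
    have h2 := dg_neg_mem hA (h (2 / 3 * t)) 0 0 (Real.log 2)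
    rw [dg_conj_low] at h2
    have h3 := H.mul_mem h2 (h (-(1 / 3) * t))
    rw [low_mul] at h3
    simp only [sub_zero, zero_add, add_zero, exp_log2, exp_neg_log2] at h3
    convert h3 using 2 <;> ring
  refine ⟨h1, fun t => ?_⟩
  have h3 := H.mul_mem (h t) (h1 (-t))
  rw [low_mul] at h3
  convert h3 using 2 <;> ring

lemma low_col (hA : posDiag ≤ H) {a b c d : ℝ}
    (h : ∀ t : ℝ, low (t * a) (t * b) (t * c) (t * d) ∈ H) :
    (∀ t : ℝ, low (t * a) (t * 0) (t * c) (t * 0) ∈ H) ∧
      ∀ t : ℝ, low (t * 0) (t * b) (t * 0) (t * d) ∈ H := by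
  have h1 : ∀ t : ℝ, low (t * a) (t * 0) (t * c) (t * 0) ∈ H := by
    intro t
    have h2 := dg_neg_mem hA (h (2 / 3 * t)) (-Real.log 2) (Real.log 2) 0
    rw [dg_conj_low] at h2
    have h3 := H.mul_mem h2 (h (-(1 / 3) * t))
    rw [low_mul] at h3
    simp only [zero_sub, neg_neg, neg_add_cancel, zero_add, add_zero, neg_zero, exp_log2,
      exp_neg_log2] at h3
    convert h3 using 2 <;> ring
  refine ⟨h1, fun t => ?_⟩
  have h3 := H.mul_mem (h t) (h1 (-t))
  rw [low_mul] at h3
  convert h3 using 2 <;> ring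

end split

/-- The upper unipotent one parameter subgroup of `SL(2, ℝ)`. -/
def uu (q : ℝ) : Matrix.SpecialLinearGroup (Fin 2) ℝ :=
  ⟨!![1, q; 0, 1], by simp [Matrix.det_fin_two]⟩

/-- The lower unipotent one parameter subgroup of `SL(2, ℝ)`. -/
def vv (r : ℝ) : Matrix.SpecialLinearGroup (Fin 2) ℝ :=
  ⟨!![1, 0; r, 1], by simp [Matrix.det_fin_two]⟩

lemma kap_uu (q : ℝ) : kap (uu q) = up (q * 1) (q * 1) (q * 1) (q * 2) := by
  apply Subtype.ext
  ext i j
  fin_cases i <;> fin_cases j <;> simp [kap_coe, uu, up, mul_comm]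

lemma kap_vv (r : ℝ) : kap (vv r) = low (r * 2) (r * (-1)) (r * (-1)) (r * 1) := by
  apply Subtype.ext
  ext i j
  fin_cases i <;> fin_cases j <;> simp [kap_coe, vv, low, mul_comm]

/-- The diagonal group and the image of the two unipotent groups generate `SL(4, ℝ)`. -/
theorem eq_top_of_kap {H : Subgroup (Matrix.SpecialLinearGroup (Fin 4) ℝ)} (hA : posDiag ≤ H)
    (hu : ∀ q, kap (uu q) ∈ H) (hv : ∀ r, kap (vv r) ∈ H) : H = ⊤ := by
  simp only [kap_uu] at hu
  simp only [kap_vv] at hv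
  obtain ⟨u1, u2⟩ := up_row hA hu
  obtain ⟨u11, u12⟩ := up_col hA u1
  obtain ⟨u21, u22⟩ := up_col hA u2
  obtain ⟨v1, v2⟩ := low_row hA hv
  obtain ⟨v11, v12⟩ := low_col hA v1
  obtain ⟨v21, v22⟩ := low_col hA v2
  have t02 : ∀ c : ℝ, transvection (show (0 : Fin 4) ≠ 2 by decide) c ∈ H := fun c => by
    convert u11 c using 1
    apply Subtype.ext
    ext i j
    fin_cases i <;> fin_cases j <;> simp [transvection_coe, up]
  have t03 : ∀ c : ℝ, transvection (show (0 : Fin 4) ≠ 3 by decide) c ∈ H := fun c => by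
    convert u12 c using 1
    apply Subtype.ext
    ext i j
    fin_cases i <;> fin_cases j <;> simp [transvection_coe, up]
  have t12 : ∀ c : ℝ, transvection (show (1 : Fin 4) ≠ 2 by decide) c ∈ H := fun c => by
    convert u21 c using 1
    apply Subtype.ext
    ext i j
    fin_cases i <;> fin_cases j <;> simp [transvection_coe, up]
  have t13 : ∀ c : ℝ, transvection (show (1 : Fin 4) ≠ 3 by decide) c ∈ H := fun c => by
    convert u22 (c / 2) using 1
    apply Subtype.ext
    ext i j
    fin_cases i <;> fin_cases j <;> simp [transvection_coe, up]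
  have t20 : ∀ c : ℝ, transvection (show (2 : Fin 4) ≠ 0 by decide) c ∈ H := fun c => by
    convert v11 (c / 2) using 1
    apply Subtype.ext
    ext i j
    fin_cases i <;> fin_cases j <;> simp [transvection_coe, low]
  have t21 : ∀ c : ℝ, transvection (show (2 : Fin 4) ≠ 1 by decide) c ∈ H := fun c => by
    convert v12 (-c) using 1
    apply Subtype.ext
    ext i j
    fin_cases i <;> fin_cases j <;> simp [transvection_coe, low]
  have t30 : ∀ c : ℝ, transvection (show (3 : Fin 4) ≠ 0 by decide) c ∈ H := fun c => by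
    convert v21 (-c) using 1
    apply Subtype.ext
    ext i j
    fin_cases i <;> fin_cases j <;> simp [transvection_coe, low]
  have t31 : ∀ c : ℝ, transvection (show (3 : Fin 4) ≠ 1 by decide) c ∈ H := fun c => by
    convert v22 c using 1
    apply Subtype.ext
    ext i j
    fin_cases i <;> fin_cases j <;> simp [transvection_coe, low]
  have comm : ∀ {i j k : Fin 4} (hij : i ≠ j) (hjk : j ≠ k) (hik : i ≠ k),
      (∀ c : ℝ, transvection hij c ∈ H) → (∀ c : ℝ, transvection hjk c ∈ H) →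
      ∀ c : ℝ, transvection hik c ∈ H := by
    intro i j k hij hjk hik h1 h2 c
    rw [transvection_commutator hij hjk hik]
    exact H.mul_mem (H.mul_mem (H.mul_mem (h1 _) (h2 _)) (h1 _)) (h2 _)
  have t01 := comm _ _ (show (0 : Fin 4) ≠ 1 by decide) t02 t21
  have t10 := comm _ _ (show (1 : Fin 4) ≠ 0 by decide) t12 t20
  have t23 := comm _ _ (show (2 : Fin 4) ≠ 3 by decide) t20 t03
  have t32 := comm _ _ (show (3 : Fin 4) ≠ 2 by decide) t30 t02
  apply eq_top_of_transvection
  intro i j hij c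
  fin_cases i <;> fin_cases j <;>
    first
    | exact absurd rfl hij
    | exact t01 c | exact t02 c | exact t03 c | exact t10 c | exact t12 c | exact t13 c
    | exact t20 c | exact t21 c | exact t23 c | exact t30 c | exact t31 c | exact t32 c

end Pool.Agent.MP_e7dd50_an

end MrgPart0

-- ======== part 1: formerly Pool.Agent.MP_e7dd50_an.Baire
section MrgPart1

/-!
A Baire category argument: the set `A · kap (SL(2, ℝ))` is not covered by countably many cosets
of proper closed subgroups.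
-/

open Matrix Topology Filter

namespace Pool.Agent.MP_e7dd50_an

open Matrix.SpecialLinearGroup

lemma mem_of_eventually {G E : Type*} [Group G] [NormedAddCommGroup E] [NormedSpace ℝ E]
    (φ : E → G) (hφ : ∀ x y, φ (x + y) = φ x * φ y) (H : Subgroup G)
    (h : ∀ᶠ x in 𝓝 (0 : E), φ x ∈ H) (x : E) : φ x ∈ H := by
  have hlim : Tendsto (fun n : ℕ => (1 / ((n : ℝ) + 1)) • x) atTop (𝓝 0) := by
    simpa using (tendsto_one_div_add_atTop_nhds_zero_nat (𝕜 := ℝ)).smul_const x
  obtain ⟨n, hn⟩ := (hlim.eventually h).exists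
  have hpow : ∀ (k : ℕ) (y : E), φ y ∈ H → φ (((k : ℝ) + 1) • y) ∈ H := by
    intro k y hy
    induction k with
    | zero => simpa using hy
    | succ k ih =>
      have : (((k + 1 : ℕ) : ℝ) + 1) • y = ((k : ℝ) + 1) • y + y := by
        push_cast
        rw [add_smul _ (1 : ℝ), one_smul]
      rw [this, hφ]
      exact H.mul_mem ih hy
  have := hpow n _ hn
  rwa [smul_smul, mul_one_div_cancel (by positivity), one_smul] at this

lemma uu_add (q q' : ℝ) : uu (q + q') = uu q * uu q' := by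
  apply Subtype.ext
  ext i j
  fin_cases i <;> fin_cases j <;> simp [uu, Matrix.mul_apply, Fin.sum_univ_succ, add_comm]

lemma vv_add (q q' : ℝ) : vv (q + q') = vv q * vv q' := by
  apply Subtype.ext
  ext i j
  fin_cases i <;> fin_cases j <;> simp [vv, Matrix.mul_apply, Fin.sum_univ_succ, add_comm]

lemma continuous_kap :
    Continuous (kap : Matrix.SpecialLinearGroup (Fin 2) ℝ → Matrix.SpecialLinearGroup (Fin 4) ℝ) := by
  refine continuous_induced_rng.2 ?_
  refine continuous_matrix fun i j => ?_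
  have h : ∀ a b : Fin 2, Continuous fun m : Matrix.SpecialLinearGroup (Fin 2) ℝ => m a b :=
    fun a b => continuous_subtype_val.matrix_elem a b
  fin_cases i <;> fin_cases j <;> simp [kap_coe] <;>
    first | exact continuous_const | exact h _ _ | exact (h _ _).neg
          | exact continuous_const.mul (h _ _)

lemma continuous_uu : Continuous uu := by
  refine continuous_induced_rng.2 ?_
  refine continuous_matrix fun i j => ?_
  fin_cases i <;> fin_cases j <;> simp [uu] <;> first | exact continuous_const | exact continuous_id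

lemma continuous_vv : Continuous vv := by
  refine continuous_induced_rng.2 ?_
  refine continuous_matrix fun i j => ?_
  fin_cases i <;> fin_cases j <;> simp [vv] <;> first | exact continuous_const | exact continuous_id

lemma continuous_dg : Continuous fun p : ℝ × ℝ × ℝ => dg p.1 p.2.1 p.2.2 := by
  refine continuous_induced_rng.2 ?_
  refine Continuous.matrix_diagonal (continuous_pi fun i => ?_)
  fin_cases i <;> simp <;> fun_prop

theorem not_covered {ι : Type*} [Countable ι]
    (H : ι → Subgroup (Matrix.SpecialLinearGroup (Fin 4) ℝ))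
    (hc : ∀ i, IsClosed (H i : Set (Matrix.SpecialLinearGroup (Fin 4) ℝ))) (hne : ∀ i, H i ≠ ⊤)
    (c : ι → Matrix.SpecialLinearGroup (Fin 4) ℝ)
    (hcov : ∀ a ∈ posDiag, ∀ l, ∃ i, a * kap l * c i ∈ H i) : False := by
  let Φ : (ℝ × ℝ × ℝ) × ℝ × ℝ → Matrix.SpecialLinearGroup (Fin 4) ℝ := fun p =>
    dg p.1.1 p.1.2.1 p.1.2.2 * kap (uu p.2.1 * vv p.2.2)
  have hΦ : Continuous Φ :=
    (continuous_dg.comp continuous_fst).mul (continuous_kap.comp
      ((continuous_uu.comp (continuous_fst.comp continuous_snd)).mul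
        (continuous_vv.comp (continuous_snd.comp continuous_snd))))
  obtain ⟨i, ⟨t, q, r⟩, hp⟩ := nonempty_interior_of_iUnion_of_closed
    (f := fun i => {p | Φ p * c i ∈ H i})
    (fun i => (hc i).preimage (hΦ.mul continuous_const))
    (Set.eq_univ_of_forall fun p => Set.mem_iUnion.2 (hcov _ (dg_mem _ _ _) _))
  have hp' : ∀ᶠ p in 𝓝 ((t, q, r) : (ℝ × ℝ × ℝ) × ℝ × ℝ), Φ p * c i ∈ H i :=
    mem_interior_iff_mem_nhds.1 hp
  have h0 : Φ (t, q, r) * c i ∈ H i := hp'.self_of_nhds
  have key : ∀ {E : Type} [NormedAddCommGroup E] [NormedSpace ℝ E]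
      (φ : E → Matrix.SpecialLinearGroup (Fin 4) ℝ) (hφ : ∀ x y, φ (x + y) = φ x * φ y)
      (ψ : E → (ℝ × ℝ × ℝ) × ℝ × ℝ) (hψ : Continuous ψ) (hψ0 : ψ 0 = (t, q, r))
      (g : Matrix.SpecialLinearGroup (Fin 4) ℝ) (hg : g ∈ H i)
      (hcomp : ∀ x, Φ (ψ x) = g * φ x * g⁻¹ * Φ (t, q, r)), ∀ x, φ x ∈ H i := by
    intro E _ _ φ hφ ψ hψ hψ0 g hg hcomp
    apply mem_of_eventually φ hφ
    have h1 : Tendsto ψ (𝓝 0) (𝓝 (t, q, r)) := hψ0 ▸ hψ.tendsto 0
    filter_upwards [h1.eventually hp'] with x hx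
    rw [hcomp] at hx
    have h2 := (H i).mul_mem ((H i).mul_mem ((H i).inv_mem hg)
      ((H i).mul_mem hx ((H i).inv_mem h0))) hg
    simpa [mul_assoc] using h2
  have hA : posDiag ≤ H i := by
    intro g hg
    obtain ⟨x, y, z, rfl⟩ := exists_dg hg
    refine key (E := ℝ × ℝ × ℝ) (fun p => dg p.1 p.2.1 p.2.2) (fun p p' => dg_add _ _ _ _ _ _)
      (fun p => (p + t, q, r)) (by fun_prop) (by simp) 1 (H i).one_mem ?_ (x, y, z)
    intro p
    simp [Φ, dg_add, mul_assoc]
  have hu : ∀ s, kap (uu s) ∈ H i := by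
    refine key (E := ℝ) (fun s => kap (uu s)) (fun s s' => by rw [uu_add, map_mul])
      (fun s => (t, s + q, r)) (by fun_prop) (by simp) (dg t.1 t.2.1 t.2.2)
      (hA (dg_mem _ _ _)) ?_
    intro s
    simp [Φ, uu_add, mul_assoc]
  have hv : ∀ s, kap (vv s) ∈ H i := by
    refine key (E := ℝ) (fun s => kap (vv s)) (fun s s' => by rw [vv_add, map_mul])
      (fun s => (t, q, s + r)) (by fun_prop) (by simp) (dg t.1 t.2.1 t.2.2 * kap (uu q))
      ((H i).mul_mem (hA (dg_mem _ _ _)) (hu q)) ?_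
    intro s
    simp [Φ, vv_add, mul_assoc]
  exact hne i (eq_top_of_kap hA hu hv)

end Pool.Agent.MP_e7dd50_an

end MrgPart1

-- ======== part 2: formerly Pool.Agent.MP_e7dd50_an.DenseOrbit
section MrgPart2

/-!
The geodesic flow on `SL(2, ℝ) / SL(2, ℤ)` has a dense orbit.
-/

open Matrix Topology Filter

namespace Pool.Agent.MP_e7dd50_an

open Matrix.SpecialLinearGroup

/-- The inclusion `SL(2, ℤ) → SL(2, ℝ)`. -/
abbrev iz : Matrix.SpecialLinearGroup (Fin 2) ℤ →* Matrix.SpecialLinearGroup (Fin 2) ℝ :=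
  Matrix.SpecialLinearGroup.map (Int.castRingHom ℝ)

/-- The diagonal one parameter group of `SL(2, ℝ)`. -/
noncomputable def dd (t : ℝ) : Matrix.SpecialLinearGroup (Fin 2) ℝ :=
  ⟨!![Real.exp t, 0; 0, Real.exp (-t)], by simp [Matrix.det_fin_two, ← Real.exp_add]⟩

lemma kap_dd (t : ℝ) : kap (dd t) = dg t t (-t) := by
  apply Subtype.ext
  ext i j
  fin_cases i <;> fin_cases j <;> simp [kap_coe, dd, dg]

lemma uu_zero : uu 0 = 1 := by
  apply Subtype.ext
  ext i j
  fin_cases i <;> fin_cases j <;> simp [uu]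

lemma vv_zero : vv 0 = 1 := by
  apply Subtype.ext
  ext i j
  fin_cases i <;> fin_cases j <;> simp [vv]

lemma exists_upper {U : Set (Matrix.SpecialLinearGroup (Fin 2) ℝ)} (hU : IsOpen U)
    (hne : U.Nonempty) : ∃ g ∈ U, ∃ γ, (g * iz γ) 1 0 = 0 := by
  obtain ⟨g, hg⟩ := hne
  have key : ∀ g' : Matrix.SpecialLinearGroup (Fin 2) ℝ, ∀ (ρ : ℝ) (k l : ℤ), IsCoprime k l →
      g' 1 0 = ρ * k → g' 1 1 = ρ * l → ∃ γ, (g' * iz γ) 1 0 = 0 := by
    intro g' ρ k l hkl h0 h1
    obtain ⟨γ, hγ0, hγ1⟩ := (hkl.symm.neg_right).exists_SL2_col 0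
    refine ⟨γ, ?_⟩
    simp [Matrix.mul_apply, Fin.sum_univ_two, h0, h1, hγ0, hγ1]
    ring
  by_cases hd : g 1 1 = 0
  · exact ⟨g, hg, key g (g 1 0) 1 0 isCoprime_one_left (by simp) (by simp [hd])⟩
  · have hcont : Continuous fun x : ℝ => g * vv (x - g 1 0 / g 1 1) :=
      continuous_const.mul (continuous_vv.comp (by fun_prop))
    obtain ⟨x, hx⟩ := (Rat.denseRange_cast (𝕜 := ℝ)).exists_mem_open (hU.preimage hcont)
      ⟨g 1 0 / g 1 1, by simpa [vv_zero] using hg⟩
    have hden : (x.den : ℝ) ≠ 0 := Nat.cast_ne_zero.2 x.den_ne_zero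
    refine ⟨_, hx, key _ (g 1 1 / x.den) x.num x.den x.isCoprime_num_den ?_ ?_⟩
    · simp [Matrix.mul_apply, Fin.sum_univ_two, vv]
      rw [Rat.cast_def]
      field_simp
      ring
    · simp [Matrix.mul_apply, Fin.sum_univ_two, vv]

lemma exists_lower {U : Set (Matrix.SpecialLinearGroup (Fin 2) ℝ)} (hU : IsOpen U)
    (hne : U.Nonempty) : ∃ g ∈ U, ∃ γ, (g * iz γ) 0 0 = 0 := by
  let w : Matrix.SpecialLinearGroup (Fin 2) ℝ := ⟨!![0, 1; -1, 0], by simp [Matrix.det_fin_two]⟩
  obtain ⟨g, hg⟩ := hne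
  obtain ⟨g', hg', γ, hγ⟩ := exists_upper (hU.preimage (continuous_const_mul w))
    ⟨w⁻¹ * g, by simpa using hg⟩
  refine ⟨w * g', hg', γ, ?_⟩
  rw [mul_assoc]
  generalize g' * iz γ = h at hγ
  simp [w, Matrix.mul_apply, Fin.sum_univ_two, hγ]

lemma transit {U V : Set (Matrix.SpecialLinearGroup (Fin 2) ℝ)} (hU : IsOpen U) (hV : IsOpen V)
    {b g : Matrix.SpecialLinearGroup (Fin 2) ℝ} (hb : b ∈ V) (hg : g ∈ U) (hb0 : b 1 0 = 0)
    (hg0 : g 0 0 = 0) : ∃ h ∈ V, ∃ t γ, dd t * h * iz γ ∈ U := by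
  have hbd := b.det_coe
  have hgd := g.det_coe
  rw [Matrix.det_fin_two] at hbd hgd
  rw [hb0, mul_zero, sub_zero] at hbd
  rw [hg0, zero_mul, zero_sub] at hgd
  have hp : b 0 0 ≠ 0 := left_ne_zero_of_mul_eq_one hbd
  have hsc : g 0 1 * g 1 0 ≠ 0 := by
    intro h
    rw [h] at hgd
    simp at hgd
  have hs : g 0 1 ≠ 0 := left_ne_zero_of_mul hsc
  have hc : g 1 0 ≠ 0 := right_ne_zero_of_mul hsc
  set p := b 0 0 with hpdef
  set q := b 0 1 with hqdef
  set s := g 0 1 with hsdef
  set c := g 1 0 with hcdef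
  set d := g 1 1 with hddef
  have hb11 : b 1 1 = p⁻¹ := by field_simp; linear_combination hbd
  have hs' : s = -c⁻¹ := by field_simp; linear_combination -hgd
  have e1 : ∀ᶠ x : ℝ in 𝓝 0, vv (x * c / p) * b ∈ V := by
    have : Continuous fun x : ℝ => vv (x * c / p) * b :=
      (continuous_vv.comp (by fun_prop)).mul continuous_const
    exact (hV.preimage this).mem_nhds (by simpa [vv_zero] using hb)
  have e2 : ∀ᶠ x : ℝ in 𝓝 0, uu (x * p / c) * g ∈ U := by
    have : Continuous fun x : ℝ => uu (x * p / c) * g :=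
      (continuous_uu.comp (by fun_prop)).mul continuous_const
    exact (hU.preimage this).mem_nhds (by simpa [uu_zero] using hg)
  set κ := (q - p * d / c) / p with hκ
  have hat : Tendsto (fun n : ℕ => (n : ℝ) + κ) atTop atTop :=
    tendsto_atTop_add_const_right _ _ tendsto_natCast_atTop_atTop
  have hlim : Tendsto (fun n : ℕ => (s / p) / ((n : ℝ) + κ)) atTop (𝓝 0) :=
    hat.const_div_atTop _
  obtain ⟨n, ⟨h1, h2⟩, h3⟩ := ((hlim.eventually (e1.and e2)).and (hat.eventually_gt_atTop 0)).exists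
  set x := (s / p) / ((n : ℝ) + κ) with hx
  have hx0 : x ≠ 0 := div_ne_zero (div_ne_zero hs hp) h3.ne'
  have hq : q = s / x - n * p + p * d / c := by
    rw [hx, hκ]
    have h3' := h3.ne'
    rw [hκ] at h3'
    field_simp
    ring
  refine ⟨_, h1, Real.log |x|, ?_⟩
  have hbm : (b : Matrix (Fin 2) (Fin 2) ℝ) = !![p, q; 0, p⁻¹] := by
    ext i j
    fin_cases i <;> fin_cases j <;> simp [hb0, hb11, hpdef, hqdef]
  have hgm : (g : Matrix (Fin 2) (Fin 2) ℝ) = !![0, s; c, d] := by
    ext i j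
    fin_cases i <;> fin_cases j <;> simp [hg0, hsdef, hcdef, hddef]
  clear_value x p q s c d
  rcases lt_or_gt_of_ne hx0 with hneg | hpos
  · refine ⟨⟨!![-1, -n; 0, -1], by simp [Matrix.det_fin_two]⟩, ?_⟩
    convert h2 using 1
    apply Subtype.ext
    simp only [Matrix.SpecialLinearGroup.coe_mul, hbm, hgm]
    ext i j
    fin_cases i <;> fin_cases j <;>
      simp [dd, uu, vv, Matrix.mul_apply, Fin.sum_univ_two, Real.exp_neg, Real.exp_log_eq_abs hx0,
        abs_of_neg hneg] <;>
      (try rw [hq]) <;> (try rw [hs']) <;> field_simp <;> ring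
  · refine ⟨⟨!![1, n; 0, 1], by simp [Matrix.det_fin_two]⟩, ?_⟩
    convert h2 using 1
    apply Subtype.ext
    simp only [Matrix.SpecialLinearGroup.coe_mul, hbm, hgm]
    ext i j
    fin_cases i <;> fin_cases j <;>
      simp [dd, uu, vv, Matrix.mul_apply, Fin.sum_univ_two, Real.exp_neg, Real.exp_log_eq_abs hx0,
        abs_of_pos hpos] <;>
      (try rw [hq]) <;> (try rw [hs']) <;> field_simp <;> ring

instance : LocallyCompactSpace (Matrix.SpecialLinearGroup (Fin 2) ℝ) :=
  haveI : LocallyCompactSpace (Matrix (Fin 2) (Fin 2) ℝ) :=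
    inferInstanceAs (LocallyCompactSpace (Fin 2 → Fin 2 → ℝ))
  isClosedEmbedding_val.locallyCompactSpace

instance : SecondCountableTopology (Matrix.SpecialLinearGroup (Fin 2) ℝ) :=
  haveI : SecondCountableTopology (Matrix (Fin 2) (Fin 2) ℝ) :=
    inferInstanceAs (SecondCountableTopology (Fin 2 → Fin 2 → ℝ))
  isClosedEmbedding_val.isEmbedding.secondCountableTopology

theorem exists_dense_geodesic : ∃ m : Matrix.SpecialLinearGroup (Fin 2) ℝ,
    Dense {g | ∃ t γ, g = dd t * m * iz γ} := by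
  let O : Set (Matrix.SpecialLinearGroup (Fin 2) ℝ) → Set (Matrix.SpecialLinearGroup (Fin 2) ℝ) :=
    fun W => {m | ∃ t γ, dd t * m * iz γ ∈ W}
  have hB := TopologicalSpace.isBasis_countableBasis (Matrix.SpecialLinearGroup (Fin 2) ℝ)
  have hopen : ∀ W, IsOpen W → IsOpen (O W) := by
    intro W hW
    have : O W = ⋃ t, ⋃ γ, (fun m => dd t * m * iz γ) ⁻¹' W := by
      ext m
      simp [O]
    rw [this]
    exact isOpen_iUnion fun t => isOpen_iUnion fun γ => hW.preimage (by fun_prop)
  have hdense : ∀ W, IsOpen W → W.Nonempty → Dense (O W) := by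
    intro W hW hWne
    rw [dense_iff_inter_open]
    intro V hV hVne
    obtain ⟨g1, hg1, γ1, h1⟩ := exists_upper hV hVne
    obtain ⟨g2, hg2, γ2, h2⟩ := exists_lower hW hWne
    obtain ⟨h, hh, t, γ, ht⟩ := transit (hW.preimage (continuous_mul_const (iz γ2)⁻¹))
      (hV.preimage (continuous_mul_const (iz γ1)⁻¹)) (b := g1 * iz γ1) (g := g2 * iz γ2)
      (by simpa using hg1) (by simpa using hg2) h1 h2
    refine ⟨_, hh, t, γ1 * γ * γ2⁻¹, ?_⟩
    simpa [mul_assoc] using ht
  obtain ⟨m, hm⟩ := (dense_biInter_of_isOpen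
    (f := O) (fun W hW => hopen W (hB.isOpen hW))
    (TopologicalSpace.countable_countableBasis (Matrix.SpecialLinearGroup (Fin 2) ℝ))
    (fun W hW => hdense W (hB.isOpen hW)
      (TopologicalSpace.nonempty_of_mem_countableBasis hW))).nonempty
  refine ⟨m, hB.dense_iff.2 fun W hW _ => ?_⟩
  obtain ⟨t, γ, h⟩ := Set.mem_iInter₂.1 hm W hW
  exact ⟨_, h, t, γ, rfl⟩

end Pool.Agent.MP_e7dd50_an

end MrgPart2

-- ======== part 3: formerly Pool.Agent.MP_e7dd50_an.NonDense
section MrgPart3

/-!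
The set `A · kap (SL(2, ℝ)) · SL(4, ℤ)` is not dense in `SL(4, ℝ)`.
-/

open Matrix Topology Filter

namespace Pool.Agent.MP_e7dd50_an

open Matrix.SpecialLinearGroup

/-- The inclusion `SL(4, ℤ) → SL(4, ℝ)`. -/
abbrev iz4 : Matrix.SpecialLinearGroup (Fin 4) ℤ →* Matrix.SpecialLinearGroup (Fin 4) ℝ :=
  Matrix.SpecialLinearGroup.map (Int.castRingHom ℝ)

/-- The action of `SL(4)` on bilinear forms. -/
def act {R : Type*} [CommRing R] (h : Matrix.SpecialLinearGroup (Fin 4) R)
    (w : Matrix (Fin 4) (Fin 4) R) : Matrix (Fin 4) (Fin 4) R :=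
  (h : Matrix (Fin 4) (Fin 4) R) * w * (h : Matrix (Fin 4) (Fin 4) R)ᵀ

lemma act_mul {R : Type*} [CommRing R] (g h : Matrix.SpecialLinearGroup (Fin 4) R)
    (w : Matrix (Fin 4) (Fin 4) R) : act (g * h) w = act g (act h w) := by
  simp [act, Matrix.transpose_mul, mul_assoc]

lemma act_one {R : Type*} [CommRing R] (w : Matrix (Fin 4) (Fin 4) R) : act 1 w = w := by
  simp [act]

lemma act_zero {R : Type*} [CommRing R] (g : Matrix.SpecialLinearGroup (Fin 4) R) :
    act g 0 = 0 := by
  simp [act]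

lemma act_transpose {R : Type*} [CommRing R] (g : Matrix.SpecialLinearGroup (Fin 4) R)
    {w : Matrix (Fin 4) (Fin 4) R} (hw : wᵀ = -w) : (act g w)ᵀ = -act g w := by
  simp [act, Matrix.transpose_mul, mul_assoc, hw]

lemma act_iz4 (γ : Matrix.SpecialLinearGroup (Fin 4) ℤ) (w : Matrix (Fin 4) (Fin 4) ℤ) :
    act (iz4 γ) (w.map (Int.castRingHom ℝ)) = (act γ w).map (Int.castRingHom ℝ) := by
  rw [act, act, Matrix.map_mul, Matrix.map_mul, Matrix.transpose_map]
  rfl

/-- The invariant bivector attached to the rational point `(x : y)` of the projective line. -/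
def biv {R : Type*} [CommRing R] (x y : R) : Matrix (Fin 4) (Fin 4) R :=
  !![0, 0, x * (2 * x - y), x * (y - x); 0, 0, y * (2 * x - y), y * (y - x);
    -(x * (2 * x - y)), -(y * (2 * x - y)), 0, 0; -(x * (y - x)), -(y * (y - x)), 0, 0]

lemma biv_transpose {R : Type*} [CommRing R] (x y : R) : (biv x y)ᵀ = -biv x y := by
  ext i j
  fin_cases i <;> fin_cases j <;> simp [biv]

lemma biv_map (x y : ℤ) : (biv x y).map (Int.castRingHom ℝ) = biv (x : ℝ) (y : ℝ) := by
  ext i j
  fin_cases i <;> fin_cases j <;> simp [biv]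

lemma act_kap_biv (m : Matrix.SpecialLinearGroup (Fin 2) ℝ) (x y : ℝ) :
    act (kap m) (biv x y) = biv x y := by
  have h := m.det_coe
  rw [Matrix.det_fin_two] at h
  have h' : (biv x y) = (m 0 0 * m 1 1 - m 0 1 * m 1 0) • biv x y := by rw [h, one_smul]
  conv_rhs => rw [h']
  ext i j
  fin_cases i <;> fin_cases j <;>
    simp [act, kap_coe, biv, Matrix.mul_apply, Fin.sum_univ_four, Matrix.vecMul, dotProduct] <;>
    ring

lemma act_diag {g : Matrix.SpecialLinearGroup (Fin 4) ℝ} {a : Fin 4 → ℝ}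
    (hg : (g : Matrix (Fin 4) (Fin 4) ℝ) = diagonal a) (w : Matrix (Fin 4) (Fin 4) ℝ) (i j : Fin 4) :
    act g w i j = a i * a j * w i j := by
  simp [act, hg]
  ring

/-- `h` has a short nonzero integral bivector with vanishing first coordinate. -/
def Special (h : Matrix.SpecialLinearGroup (Fin 4) ℝ) : Prop :=
  ∃ w : Matrix (Fin 4) (Fin 4) ℤ, w ≠ 0 ∧ wᵀ = -w ∧
    act h (w.map (Int.castRingHom ℝ)) 0 1 = 0 ∧ ∀ i j, |act h (w.map (Int.castRingHom ℝ)) i j| ≤ 2

lemma Special.mul_iz4 {h : Matrix.SpecialLinearGroup (Fin 4) ℝ} (hh : Special h)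
    (γ : Matrix.SpecialLinearGroup (Fin 4) ℤ) : Special (h * iz4 γ) := by
  obtain ⟨w, h0, ht, h1, h2⟩ := hh
  have e : act (h * iz4 γ) ((act γ⁻¹ w).map (Int.castRingHom ℝ)) =
      act h (w.map (Int.castRingHom ℝ)) := by
    rw [act_mul, act_iz4, ← act_mul, mul_inv_cancel, act_one]
  refine ⟨act γ⁻¹ w, fun h => h0 ?_, act_transpose _ ht, by rwa [e], by rwa [e]⟩
  rw [← act_one w, ← mul_inv_cancel γ, act_mul, h, act_zero]

lemma special_kap {g : Matrix.SpecialLinearGroup (Fin 4) ℝ} (hg : g ∈ posDiag)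
    (m : Matrix.SpecialLinearGroup (Fin 2) ℝ) : Special (g * kap m) := by
  obtain ⟨a, ha, hga⟩ := hg
  have hdet := g.det_coe
  rw [hga, det_diagonal, Fin.prod_univ_four] at hdet
  have key : ∀ x y : ℤ, biv x y ≠ 0 →
      (∀ i j, |a i * a j * biv (x : ℝ) (y : ℝ) i j| ≤ 2) → Special (g * kap m) := by
    intro x y h0 h
    refine ⟨biv x y, h0, biv_transpose _ _, ?_, ?_⟩
    · rw [biv_map, act_mul, act_kap_biv, act_diag hga]
      simp [biv]
    · intro i j
      rw [biv_map, act_mul, act_kap_biv, act_diag hga]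
      exact h i j
  have h0 := ha 0
  have h1 := ha 1
  have h2 := ha 2
  have h3 := ha 3
  have h02 := mul_pos h0 h2
  have h03 := mul_pos h0 h3
  have h12 := mul_pos h1 h2
  have h13 := mul_pos h1 h3
  have c1 : a 0 * a 2 ≤ 1 ∨ a 1 * a 3 ≤ 1 := by
    by_contra hc
    push Not at hc
    nlinarith [mul_pos (sub_pos.2 hc.1) (sub_pos.2 hc.2)]
  have c2 : a 0 * a 3 ≤ 1 ∨ a 1 * a 2 ≤ 1 := by
    by_contra hc
    push Not at hc
    nlinarith [mul_pos (sub_pos.2 hc.1) (sub_pos.2 hc.2)]
  rcases c1 with c1 | c1 <;> rcases c2 with c2 | c2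
  · refine key 1 0 (fun h => by simpa [biv] using congrFun (congrFun h 0) 2) fun i j => ?_
    fin_cases i <;> fin_cases j <;> simp [biv, abs_le, -abs_mul] <;> constructor <;> nlinarith
  · refine key 1 1 (fun h => by simpa [biv] using congrFun (congrFun h 0) 2) fun i j => ?_
    fin_cases i <;> fin_cases j <;> simp [biv, abs_le, -abs_mul] <;> constructor <;> nlinarith
  · refine key 1 2 (fun h => by simpa [biv] using congrFun (congrFun h 0) 3) fun i j => ?_
    fin_cases i <;> fin_cases j <;> simp [biv, abs_le, -abs_mul] <;> constructor <;> nlinarith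
  · refine key 0 1 (fun h => by simpa [biv] using congrFun (congrFun h 1) 3) fun i j => ?_
    fin_cases i <;> fin_cases j <;> simp [biv, abs_le, -abs_mul] <;> constructor <;> nlinarith

lemma exists_generic : ∃ h : Matrix.SpecialLinearGroup (Fin 4) ℝ,
    ∀ w : Matrix (Fin 4) (Fin 4) ℤ, w ≠ 0 → wᵀ = -w →
      act h (w.map (Int.castRingHom ℝ)) 0 1 ≠ 0 := by
  obtain ⟨θ, hθ⟩ : ∃ θ : ℝ, Transcendental ℤ θ :=
    ⟨_, transcendental_liouvilleNumber (m := 2) le_rfl⟩
  refine ⟨up θ (θ ^ 2) (θ ^ 3) (θ ^ 5), fun w h0 ht h => h0 ?_⟩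
  have hs : ∀ i j, w j i = - w i j := fun i j => congrFun (congrFun ht i) j
  have hd : ∀ i, w i i = 0 := fun i => by have := hs i i; omega
  have hp : Polynomial.aeval θ (Polynomial.C (w 0 1) - Polynomial.C (w 1 2) * Polynomial.X
      - Polynomial.C (w 1 3) * Polynomial.X ^ 2 + Polynomial.C (w 0 2) * Polynomial.X ^ 3
      + Polynomial.C (w 0 3 - w 2 3) * Polynomial.X ^ 5
      + Polynomial.C (w 2 3) * Polynomial.X ^ 6) = 0 := by
    simp [act, up, Matrix.mul_apply, Fin.sum_univ_four, Matrix.vecMul, dotProduct, hd 2, hd 3,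
      hs 1 2, hs 1 3, hs 2 3] at h
    simp
    linear_combination h
  have hq := (transcendental_iff.1 hθ) _ hp
  have c : ∀ n, (Polynomial.C (w 0 1) - Polynomial.C (w 1 2) * Polynomial.X
      - Polynomial.C (w 1 3) * Polynomial.X ^ 2 + Polynomial.C (w 0 2) * Polynomial.X ^ 3
      + Polynomial.C (w 0 3 - w 2 3) * Polynomial.X ^ 5
      + Polynomial.C (w 2 3) * Polynomial.X ^ 6).coeff n = 0 := fun n => by rw [hq]; simp
  have c0 := c 0
  have c1 := c 1
  have c2 := c 2
  have c3 := c 3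
  have c5 := c 5
  have c6 := c 6
  simp only [Polynomial.coeff_add, Polynomial.coeff_sub, Polynomial.coeff_C_mul,
    Polynomial.coeff_X_pow, Polynomial.coeff_X, Polynomial.coeff_C] at c0 c1 c2 c3 c5 c6
  norm_num at c0 c1 c2 c3 c5 c6
  have e03 : w 0 3 = 0 := by omega
  ext i j
  fin_cases i <;> fin_cases j <;>
    simp [hd, c0, c1, c2, c3, c6, e03, hs 0 1, hs 0 2, hs 0 3, hs 1 2, hs 1 3, hs 2 3]

lemma continuous_act (w : Matrix (Fin 4) (Fin 4) ℝ) :
    Continuous fun h : Matrix.SpecialLinearGroup (Fin 4) ℝ => act h w :=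
  (continuous_subtype_val.mul continuous_const).mul continuous_subtype_val.matrix_transpose

theorem exists_nhds_not_special : ∃ h : Matrix.SpecialLinearGroup (Fin 4) ℝ,
    ∀ᶠ g in 𝓝 h, ¬ Special g := by
  obtain ⟨h, hh⟩ := exists_generic
  refine ⟨h, ?_⟩
  let N : Matrix.SpecialLinearGroup (Fin 4) ℝ → ℝ := fun g => ∑ i, ∑ j, |g⁻¹ i j|
  have hN : Continuous N := by
    refine continuous_finsetSum _ fun i _ => continuous_finsetSum _ fun j _ => ?_
    have hi : Continuous fun g : Matrix.SpecialLinearGroup (Fin 4) ℝ => g⁻¹ := continuous_inv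
    exact ((continuous_subtype_val.comp hi).matrix_elem i j).abs
  have hle : ∀ (g : Matrix.SpecialLinearGroup (Fin 4) ℝ) i j, |g⁻¹ i j| ≤ N g := fun g i j =>
    (Finset.single_le_sum (f := fun j => |g⁻¹ i j|) (fun _ _ => abs_nonneg _)
      (Finset.mem_univ j)).trans
      (Finset.single_le_sum (f := fun i => ∑ j, |g⁻¹ i j|)
        (fun _ _ => Finset.sum_nonneg fun _ _ => abs_nonneg _) (Finset.mem_univ i))
  set K := N h + 1 with hK
  have e1 : ∀ᶠ g in 𝓝 h, N g < K := hN.continuousAt.eventually_lt continuousAt_const (by linarith)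
  obtain ⟨B, hB⟩ := exists_nat_ge (32 * K ^ 2)
  have hfin : {w : Matrix (Fin 4) (Fin 4) ℤ | ∀ i j, w i j ∈ Set.Icc (-(B : ℤ)) B}.Finite := by
    have := Set.Finite.pi' (fun _ : Fin 4 =>
      Set.Finite.pi' (fun _ : Fin 4 => Set.finite_Icc (-(B : ℤ)) B))
    exact this
  have e2 : ∀ᶠ g in 𝓝 h, ∀ w ∈ {w : Matrix (Fin 4) (Fin 4) ℤ | ∀ i j, w i j ∈ Set.Icc (-(B : ℤ)) B},
      w ≠ 0 → wᵀ = -w → act g (w.map (Int.castRingHom ℝ)) 0 1 ≠ 0 := by
    rw [Filter.eventually_all_finite hfin]
    intro w _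
    by_cases h0 : w = 0
    · exact Eventually.of_forall fun g h => absurd h0 h
    by_cases ht : wᵀ = -w
    · have := (((continuous_act (w.map (Int.castRingHom ℝ))).matrix_elem 0 1).continuousAt
        (x := h)).eventually_ne (hh w h0 ht)
      exact this.mono fun g hg _ _ => hg
    · exact Eventually.of_forall fun g _ h => absurd h ht
  filter_upwards [e1, e2] with g hg1 hg2
  rintro ⟨w, h0, ht, h1, h2⟩
  refine hg2 w (fun i j => ?_) h0 ht h1
  have hw : (w.map (Int.castRingHom ℝ)) = act g⁻¹ (act g (w.map (Int.castRingHom ℝ))) := by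
    rw [← act_mul, inv_mul_cancel, act_one]
  have hij : (w i j : ℝ) = ∑ l, (∑ k, g⁻¹ i k * act g (w.map (Int.castRingHom ℝ)) k l) * g⁻¹ j l := by
    have := congrFun (congrFun hw i) j
    rw [act, Matrix.mul_apply] at this
    simpa only [Matrix.mul_apply, Matrix.transpose_apply, Matrix.map_apply, eq_intCast] using this
  have hK0 : 0 ≤ K := ((abs_nonneg _).trans (hle g 0 0)).trans hg1.le
  have hb : |(w i j : ℝ)| ≤ 32 * K ^ 2 := by
    rw [hij]
    refine (Finset.abs_sum_le_sum_abs _ _).trans ?_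
    have : ∀ l, |(∑ k, g⁻¹ i k * act g (w.map (Int.castRingHom ℝ)) k l) * g⁻¹ j l| ≤
        8 * K ^ 2 := by
      intro l
      rw [abs_mul]
      have s1 : |∑ k, g⁻¹ i k * act g (w.map (Int.castRingHom ℝ)) k l| ≤ 8 * K := by
        refine (Finset.abs_sum_le_sum_abs _ _).trans ?_
        have : ∀ k, |g⁻¹ i k * act g (w.map (Int.castRingHom ℝ)) k l| ≤ K * 2 := fun k => by
          rw [abs_mul]
          exact mul_le_mul ((hle g i k).trans hg1.le) (h2 k l) (abs_nonneg _) hK0
        refine (Finset.sum_le_sum fun k _ => this k).trans ?_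
        simp
        linarith
      calc _ ≤ 8 * K * K :=
            mul_le_mul s1 ((hle g j l).trans hg1.le) (abs_nonneg _) (by positivity)
        _ = 8 * K ^ 2 := by ring
    refine (Finset.sum_le_sum fun l _ => this l).trans ?_
    simp
    linarith
  have hb' : |w i j| ≤ (B : ℤ) := by
    have : ((|w i j| : ℤ) : ℝ) ≤ ((B : ℤ) : ℝ) := by
      push_cast
      exact hb.trans hB
    exact_mod_cast this
  exact abs_le.1 hb'

end Pool.Agent.MP_e7dd50_an

end MrgPart3

-- ======== part 4: formerly Pool.Agent.MP_e7dd50_an.Core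
section MrgPart4

/-!
The orbit whose closure is not covered by countably many orbits of proper closed subgroups.
-/

open Matrix Topology Filter

namespace Pool.Agent.MP_e7dd50_an

open Matrix.SpecialLinearGroup

lemma isClosed_posDiag :
    IsClosed (posDiag : Set (Matrix.SpecialLinearGroup (Fin 4) ℝ)) := by
  have : (posDiag : Set (Matrix.SpecialLinearGroup (Fin 4) ℝ)) =
      ⋂ i, ({g | 0 ≤ g i i} ∩ ⋂ j, {g | i ≠ j → g i j = 0}) := by
    ext g
    simp only [SetLike.mem_coe, Set.mem_iInter, Set.mem_inter_iff, Set.mem_ofPred_eq]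
    constructor
    · rintro ⟨a, ha, hg⟩ i
      refine ⟨?_, fun j hij => ?_⟩
      · rw [hg, diagonal_apply_eq]
        exact (ha i).le
      · rw [hg, diagonal_apply_ne _ hij]
    · intro h
      have hg : (g : Matrix (Fin 4) (Fin 4) ℝ) = diagonal fun i => g i i := by
        ext i j
        by_cases hij : i = j
        · subst hij
          simp
        · rw [diagonal_apply_ne _ hij]
          exact (h i).2 j hij
      refine ⟨fun i => g i i, fun i => lt_of_le_of_ne (h i).1 ?_, hg⟩
      have hd := g.det_coe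
      rw [hg] at hd
      exact (diagonal_neZero _ hd i).symm
  rw [this]
  have hc : ∀ i j : Fin 4, Continuous fun g : Matrix.SpecialLinearGroup (Fin 4) ℝ => g i j :=
    fun i j => continuous_subtype_val.matrix_elem i j
  refine isClosed_iInter fun i => (isClosed_le continuous_const (hc i i)).inter
    (isClosed_iInter fun j => ?_)
  by_cases hij : i = j
  · simp [hij]
  · simpa [hij] using isClosed_eq (hc i j) continuous_const

lemma posDiag_ne_top : posDiag ≠ ⊤ := by
  intro h
  have : up 1 0 0 0 ∈ posDiag := h ▸ Subgroup.mem_top _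
  obtain ⟨a, -, ha⟩ := this
  simpa [up] using congrFun (congrFun ha 0) 2

theorem core : ∃ x : Matrix.SpecialLinearGroup (Fin 4) ℝ ⧸ intPoints,
    ¬ Dense (MulAction.orbit posDiag x) ∧
    ∀ (ι : Type) [Countable ι] (H : ι → Subgroup (Matrix.SpecialLinearGroup (Fin 4) ℝ))
      (g : ι → Matrix.SpecialLinearGroup (Fin 4) ℝ),
      (∀ i, IsClosed (H i : Set (Matrix.SpecialLinearGroup (Fin 4) ℝ)) ∧ H i ≠ ⊤) →
      ¬ closure (MulAction.orbit posDiag x) ⊆ MulAction.orbit posDiag x ∪
        ⋃ i, (fun l => ((g i * l : Matrix.SpecialLinearGroup (Fin 4) ℝ) :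
          Matrix.SpecialLinearGroup (Fin 4) ℝ ⧸ intPoints)) '' (H i) := by
  obtain ⟨m, hm⟩ := exists_dense_geodesic
  have horb : ∀ y : Matrix.SpecialLinearGroup (Fin 4) ℝ,
      (y : Matrix.SpecialLinearGroup (Fin 4) ℝ ⧸ intPoints) ∈ MulAction.orbit posDiag
        ((kap m : Matrix.SpecialLinearGroup (Fin 4) ℝ) : _ ⧸ intPoints) ↔
      ∃ a ∈ posDiag, ∃ γ, y = a * kap m * iz4 γ := by
    intro y
    constructor
    · rintro ⟨⟨a, ha⟩, h⟩
      have h' : ((a * kap m : Matrix.SpecialLinearGroup (Fin 4) ℝ) : _ ⧸ intPoints) = y := h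
      rw [QuotientGroup.eq] at h'
      obtain ⟨γ, hγ⟩ := h'
      exact ⟨a, ha, γ, by rw [hγ]; group⟩
    · rintro ⟨a, ha, γ, rfl⟩
      refine ⟨⟨a, ha⟩, ?_⟩
      change ((a * kap m : Matrix.SpecialLinearGroup (Fin 4) ℝ) : _ ⧸ intPoints) = _
      rw [QuotientGroup.eq]
      exact ⟨γ, by group⟩
  refine ⟨((kap m : Matrix.SpecialLinearGroup (Fin 4) ℝ) : _ ⧸ intPoints), ?_, ?_⟩
  · intro hd
    obtain ⟨h, hh⟩ := exists_nhds_not_special
    have hd' := hd.preimage (QuotientGroup.isOpenMap_coe (N := intPoints))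
    obtain ⟨y, hy1, hy2⟩ := mem_closure_iff_nhds.1 (hd' h) _ hh
    obtain ⟨a, ha, γ, rfl⟩ := (horb y).1 hy2
    exact hy1 ((special_kap ha m).mul_iz4 γ)
  · intro ι _ H g hH hsub
    have hcl : ∀ a ∈ posDiag, ∀ l, ((a * kap l : Matrix.SpecialLinearGroup (Fin 4) ℝ) :
        _ ⧸ intPoints) ∈ closure (MulAction.orbit posDiag
          ((kap m : Matrix.SpecialLinearGroup (Fin 4) ℝ) : _ ⧸ intPoints)) := by
      intro a ha l
      have hc : Continuous fun l : Matrix.SpecialLinearGroup (Fin 2) ℝ =>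
          ((a * kap l : Matrix.SpecialLinearGroup (Fin 4) ℝ) : _ ⧸ intPoints) :=
        QuotientGroup.continuous_mk.comp (continuous_const.mul continuous_kap)
      refine map_mem_closure (f := fun l : Matrix.SpecialLinearGroup (Fin 2) ℝ =>
          ((a * kap l : Matrix.SpecialLinearGroup (Fin 4) ℝ) : _ ⧸ intPoints)) hc (hm l) ?_
      rintro _ ⟨t, γ, rfl⟩
      refine (horb _).2 ⟨a * dg t t (-t), posDiag.mul_mem ha (dg_mem _ _ _), kap γ, ?_⟩
      rw [map_mul, map_mul, kap_dd, kap_map]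
      group
    let H' : Option ι → Subgroup (Matrix.SpecialLinearGroup (Fin 4) ℝ) := fun o =>
      o.elim posDiag fun i => (H i).comap (MulAut.conj (g i)⁻¹).toMonoidHom
    let c : Option ι → Matrix.SpecialLinearGroup (Fin 4) ℝ := fun o =>
      o.elim (kap m)⁻¹ fun i => (g i)⁻¹
    have hcount : Countable (Matrix.SpecialLinearGroup (Fin 4) ℤ) :=
      haveI : Countable (Matrix (Fin 4) (Fin 4) ℤ) :=
        inferInstanceAs (Countable (Fin 4 → Fin 4 → ℤ))
      inferInstanceAs (Countable {A : Matrix (Fin 4) (Fin 4) ℤ // A.det = 1})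
    refine not_covered (ι := Option ι × Matrix.SpecialLinearGroup (Fin 4) ℤ)
      (fun p => H' p.1) ?_ ?_ (fun p => iz4 p.2 * c p.1) ?_
    · rintro ⟨_ | i, γ⟩
      · exact isClosed_posDiag
      · exact (hH i).1.preimage (f := fun y => (g i)⁻¹ * y * (g i)⁻¹⁻¹) (by fun_prop)
    · rintro ⟨_ | i, γ⟩
      · exact posDiag_ne_top
      · intro h
        apply (hH i).2
        rw [eq_top_iff]
        intro y _
        have : g i * y * (g i)⁻¹ ∈ H' (some i) := by
          have h' : H' (some i) = ⊤ := h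
          rw [h']
          trivial
        simpa [H', mul_assoc] using this
    · intro a ha l
      rcases hsub (hcl a ha l) with h | h
      · obtain ⟨a', ha', γ, h⟩ := (horb _).1 h
        refine ⟨(none, γ⁻¹), ?_⟩
        simpa [H', c, h, mul_assoc] using ha'
      · obtain ⟨i, y, hy, h⟩ := Set.mem_iUnion.1 h
        simp only [QuotientGroup.eq] at h
        obtain ⟨γ, hγ⟩ := h
        refine ⟨(some i, γ⁻¹), ?_⟩
        have e : a * kap l = g i * y * iz4 γ := by rw [hγ]; group
        simpa [H', c, e, mul_assoc] using hy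

lemma continuous_toComplex : Continuous toComplex :=
  Complex.continuous_ofReal.specialLinearGroup_map (f := Complex.ofRealHom)

lemma IsQSubgroup.isClosed {L : Subgroup (Matrix.SpecialLinearGroup (Fin 4) ℂ)}
    (hL : IsQSubgroup L) : IsClosed (L : Set (Matrix.SpecialLinearGroup (Fin 4) ℂ)) := by
  obtain ⟨S, hS⟩ := hL
  have : (L : Set (Matrix.SpecialLinearGroup (Fin 4) ℂ)) = ⋂ p ∈ S,
      {g | MvPolynomial.aeval (fun ij : Fin 4 × Fin 4 => g ij.1 ij.2) p = 0} := by
    ext g
    simp [hS]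
  rw [this]
  refine isClosed_biInter fun p _ => isClosed_eq ?_ continuous_const
  have h1 : Continuous fun v : Fin 4 × Fin 4 → ℂ => MvPolynomial.aeval v p := by
    simp only [MvPolynomial.aeval_def, MvPolynomial.eval₂_eq_eval_map]
    exact MvPolynomial.continuous_eval _
  exact h1.comp (continuous_pi fun ij => continuous_subtype_val.matrix_elem ij.1 ij.2)

lemma IsQSubgroup.isClosed_realPoints {L : Subgroup (Matrix.SpecialLinearGroup (Fin 4) ℂ)}
    (hL : IsQSubgroup L) :
    IsClosed (realPoints L : Set (Matrix.SpecialLinearGroup (Fin 4) ℝ)) :=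
  hL.isClosed.preimage continuous_toComplex

lemma IsQSubgroup.realPoints_ne_top {L : Subgroup (Matrix.SpecialLinearGroup (Fin 4) ℂ)}
    (hL : IsQSubgroup L) (hne : L ≠ ⊤) : realPoints L ≠ ⊤ := by
  intro h
  apply hne
  apply eq_top_of_transvection
  intro i j hij z
  obtain ⟨S, hS⟩ := hL
  rw [hS]
  intro p hp
  let q : Polynomial ℂ := MvPolynomial.aeval (fun ab : Fin 4 × Fin 4 =>
    Polynomial.C ((1 : Matrix (Fin 4) (Fin 4) ℂ) ab.1 ab.2) +
      Polynomial.C (single i j (1 : ℂ) ab.1 ab.2) * Polynomial.X) p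
  have hq : ∀ w : ℂ, q.eval w =
      MvPolynomial.aeval (fun ab : Fin 4 × Fin 4 => transvection hij w ab.1 ab.2) p := by
    intro w
    have := MvPolynomial.comp_aeval_apply (f := fun ab : Fin 4 × Fin 4 =>
      Polynomial.C ((1 : Matrix (Fin 4) (Fin 4) ℂ) ab.1 ab.2) +
        Polynomial.C (single i j (1 : ℂ) ab.1 ab.2) * Polynomial.X)
      ((Polynomial.aeval (R := ℂ) w).restrictScalars ℚ) p
    simp only [AlgHom.restrictScalars_apply, Polynomial.coe_aeval_eq_eval] at this
    rw [this]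
    congr 2
    funext ab
    simp [transvection_coe, single_apply]
    split_ifs <;> simp
  have hq0 : q = 0 := by
    apply Polynomial.eq_zero_of_infinite_isRoot
    refine (Set.infinite_range_of_injective Complex.ofReal_injective).mono ?_
    rintro _ ⟨t, rfl⟩
    have h1 : transvection hij t ∈ realPoints L := h ▸ Subgroup.mem_top _
    have h2 : toComplex (transvection hij t) = transvection hij (t : ℂ) := by
      apply Subtype.ext
      ext a b
      simp [toComplex, transvection_coe, single_apply, one_apply]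
      split_ifs <;> simp
    have h3 : transvection hij (t : ℂ) ∈ L := h2 ▸ h1
    exact (hq t).trans ((hS _).1 h3 p hp)
  rw [← hq, hq0, Polynomial.eval_zero]

end Pool.Agent.MP_e7dd50_an

end MrgPart4

-- ======== part 5: formerly Pool.Agent.MP_e7dd50_an.Reduction
section MrgPart5

/-!
Reduction theory: a set of finite Lebesgue measure meeting every `GL(n, ℤ)`-orbit of matrices of
small nonzero determinant.
-/

open Matrix MeasureTheory Set

namespace Pool.Agent.MP_e7dd50_an

lemma exists_unimodular_row {n : ℕ} (z : Fin (n + 1) → ℤ) (hz : z ≠ 0) :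
    ∃ (γ : Matrix (Fin (n + 1)) (Fin (n + 1)) ℤ) (c : ℤ), IsUnit γ.det ∧ z = c • γ 0 := by
  obtain ⟨k, snf⟩ := Submodule.smithNormalForm (Pi.basisFun ℤ (Fin (n + 1)))
    (Submodule.span ℤ {z})
  have hk : k = 1 := by
    have h1 := Module.finrank_eq_card_basis snf.bN
    rw [← (LinearEquiv.toSpanNonzeroSingleton ℤ _ z hz).finrank_eq, Module.finrank_self,
      Fintype.card_fin] at h1
    exact h1.symm
  subst hk
  let b := snf.bM.reindex (Equiv.swap 0 (snf.f 0))
  refine ⟨Matrix.of b, snf.bN.repr ⟨z, Submodule.mem_span_singleton_self z⟩ 0 * snf.a 0, ?_, ?_⟩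
  · rw [← Pi.basisFun_det_apply]
    exact Module.Basis.isUnit_det _ _
  · have h1 := snf.bN.sum_repr ⟨z, Submodule.mem_span_singleton_self z⟩
    have h2 := congrArg Subtype.val h1
    simp only [Finset.univ_unique, Fin.default_eq_zero, Finset.sum_singleton,
      SetLike.val_smul, snf.snf] at h2
    rw [mul_smul]
    convert h2.symm using 3
    ext j
    simp [b]

/-- The box used in Minkowski's theorem. -/
def box (n : ℕ) (t : ℝ) : Set (Fin (n + 1) → ℝ) :=
  Set.pi univ fun i => Icc (-(Fin.cons (2 * t) (fun _ => 2) : Fin (n + 1) → ℝ) i)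
    ((Fin.cons (2 * t) (fun _ => 2) : Fin (n + 1) → ℝ) i)

lemma mem_box {n : ℕ} {t : ℝ} {v : Fin (n + 1) → ℝ} :
    v ∈ box n t ↔ ∀ i, |v i| ≤ (Fin.cons (2 * t) (fun _ => 2) : Fin (n + 1) → ℝ) i := by
  simp [box, abs_le, Pi.le_def, forall_and]

lemma volume_box (n : ℕ) {t : ℝ} (ht : 0 ≤ t) :
    volume (box n t) = 4 ^ (n + 1) * ENNReal.ofReal t := by
  rw [box, volume_pi_pi, Fin.prod_univ_succ]
  simp only [Real.volume_Icc, Fin.cons_zero, Fin.cons_succ, Finset.prod_const, Finset.card_univ,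
    Fintype.card_fin]
  rw [show 2 * t - -(2 * t) = 4 * t by ring, show (2 : ℝ) - -2 = 4 by norm_num,
    ENNReal.ofReal_mul (by norm_num)]
  simp [pow_succ]
  ring

lemma exists_short {n : ℕ} (N : Matrix (Fin (n + 1)) (Fin (n + 1)) ℝ) {t : ℝ} (h0 : N.det ≠ 0)
    (ht : |N.det| ≤ t) : ∃ γ : Matrix (Fin (n + 1)) (Fin (n + 1)) ℤ, IsUnit γ.det ∧
      (γ.map (Int.castRingHom ℝ) * N) 0 ∈ box n t := by
  have hli : LinearIndependent ℝ N.row := Matrix.linearIndependent_rows_of_det_ne_zero h0
  let b : Module.Basis (Fin (n + 1)) ℝ (Fin (n + 1) → ℝ) :=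
    basisOfLinearIndependentOfCardEqFinrank hli (by simp)
  have hb : ∀ i, b i = N i := fun i => by simp [b]; rfl
  have htpos : 0 < t := (abs_pos.2 h0).trans_le ht
  have hcount : Countable (Submodule.span ℤ (Set.range b)).toAddSubgroup :=
    inferInstanceAs (Countable (Submodule.span ℤ (Set.range b)))
  obtain ⟨x, hx0, hx⟩ := exists_ne_zero_mem_lattice_of_measure_mul_two_pow_lt_measure
    (ZSpan.isAddFundamentalDomain' b volume) (s := box n t)
    (fun x hx => by simpa [mem_box] using hx)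
    (convex_pi fun i _ => convex_Icc _ _) (by
      rw [ZSpan.volume_fundamentalDomain, volume_box n htpos.le,
        show Matrix.of b = N from funext hb, Module.finrank_fin_fun, mul_comm]
      calc (2 : ENNReal) ^ (n + 1) * ENNReal.ofReal |N.det|
          ≤ 2 ^ (n + 1) * ENNReal.ofReal t := by gcongr
        _ < 4 ^ (n + 1) * ENNReal.ofReal t := by
          refine ENNReal.mul_lt_mul_left (by simpa using htpos) ENNReal.ofReal_ne_top ?_
          exact ENNReal.pow_lt_pow_left (by simp) (by norm_num))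
  obtain ⟨z, hz⟩ := (Submodule.mem_span_range_iff_exists_fun ℤ).1 x.2
  have hz0 : z ≠ 0 := by
    rintro rfl
    apply hx0
    apply Subtype.ext
    simpa using hz.symm
  obtain ⟨γ, c, hγ, hc⟩ := exists_unimodular_row z hz0
  have hc0 : c ≠ 0 := by
    rintro rfl
    exact hz0 (by simpa using hc)
  refine ⟨γ, hγ, mem_box.2 fun i => le_trans ?_ (mem_box.1 hx i)⟩
  have e : (x : Fin (n + 1) → ℝ) i = c * (γ.map (Int.castRingHom ℝ) * N) 0 i := by
    rw [← hz, hc, Matrix.mul_apply]
    simp [hb, Finset.mul_sum, mul_assoc]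
  rw [e, abs_mul]
  have : (1 : ℝ) ≤ |(c : ℝ)| := by exact_mod_cast Int.one_le_abs hc0
  nlinarith [abs_nonneg ((γ.map (Int.castRingHom ℝ) * N) 0 i)]

/-- The Schur complement of the upper left entry. -/
noncomputable def schur {n : ℕ} (N : Fin (n + 1) → Fin (n + 1) → ℝ) : Fin n → Fin n → ℝ :=
  fun i j => N i.succ j.succ - N i.succ 0 / N 0 0 * N 0 j.succ

lemma det_eq_schur {n : ℕ} (N : Matrix (Fin (n + 1)) (Fin (n + 1)) ℝ) (h : N 0 0 ≠ 0) :
    N.det = N 0 0 * (Matrix.of (schur N)).det := by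
  let B : Matrix (Fin (n + 1)) (Fin (n + 1)) ℝ :=
    Matrix.of (Fin.cons (N 0) fun i => Fin.cons 0 (schur N i))
  have h1 : N.det = B.det := by
    refine Matrix.det_eq_of_forall_row_eq_smul_add_const
      (Fin.cons 0 fun i => N i.succ 0 / N 0 0) 0 rfl fun i j => ?_
    refine Fin.cases ?_ (fun i => ?_) i
    · simp [B]
    · refine Fin.cases ?_ (fun j => ?_) j
      · simp [B, h]
      · simp [B, schur]
  rw [h1, Matrix.det_succ_column_zero, Fin.sum_univ_succ]
  simp [B]
  left
  congr 1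

lemma prod_le_of_sections {α β : Type*} [MeasurableSpace α] [MeasurableSpace β]
    (μ : Measure α) (ν : Measure β) {s : Set (α × β)} (hs : MeasurableSet s) {A : Set α}
    (hA : MeasurableSet A) (c : ENNReal) (h1 : ∀ p ∈ s, p.1 ∈ A)
    (h2 : ∀ x ∈ A, ν (Prod.mk x ⁻¹' s) ≤ c) : μ.prod ν s ≤ μ A * c := by
  refine (Measure.prod_apply_le hs).trans ?_
  rw [mul_comm, ← setLIntegral_const, ← lintegral_indicator hA]
  refine lintegral_mono fun x => ?_
  by_cases hx : x ∈ A
  · simpa [hx] using h2 x hx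
  · have : Prod.mk x ⁻¹' s = ∅ := eq_empty_of_forall_notMem fun y hy => hx (h1 _ hy)
    simp [this]

theorem reduction (n : ℕ) : ∃ (C : ENNReal) (F : Set (ℝ × (Fin n → Fin n → ℝ))), C ≠ ⊤ ∧
    MeasurableSet F ∧ (∀ t, 0 < t → volume (Prod.mk t ⁻¹' F) ≤ C * ENNReal.ofReal (t ^ n)) ∧
    ∀ (t : ℝ) (N : Matrix (Fin n) (Fin n) ℝ), N.det ≠ 0 → |N.det| ≤ t →
      ∃ γ : Matrix (Fin n) (Fin n) ℤ, IsUnit γ.det ∧
        (t, (γ.map (Int.castRingHom ℝ) * N : Matrix (Fin n) (Fin n) ℝ)) ∈ F := by
  induction n with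
  | zero =>
    refine ⟨1, univ, by simp, MeasurableSet.univ, fun t _ => ?_, fun t N _ _ => ⟨1, by simp, trivial⟩⟩
    simp [volume_pi]
  | succ n ih =>
    obtain ⟨C, F, hC, hF, hvol, hcov⟩ := ih
    let G : Set (ℝ × (Fin (n + 1) → Fin (n + 1) → ℝ)) :=
      {p | p.2 0 ∈ box n p.1 ∧ p.2 0 0 ≠ 0 ∧ (∀ i : Fin n, p.2 i.succ 0 / p.2 0 0 ∈ Ico (0 : ℝ) 1) ∧
        (p.1 / |p.2 0 0|, schur p.2) ∈ F}
    have hschur : Measurable (schur : (Fin (n + 1) → Fin (n + 1) → ℝ) → _) := by
      unfold schur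
      fun_prop
    have hG : MeasurableSet G := by
      refine MeasurableSet.inter ?_ (MeasurableSet.inter ?_ (MeasurableSet.inter ?_ ?_))
      · change MeasurableSet {p : ℝ × (Fin (n + 1) → Fin (n + 1) → ℝ) | p.2 0 ∈ box n p.1}
        simp only [mem_box, Set.ofPred_forall]
        refine MeasurableSet.iInter fun i => measurableSet_le (by fun_prop) ?_
        refine Fin.cases ?_ (fun i => ?_) i <;> simp <;> fun_prop
      · exact (measurableSet_eq_fun (f := fun p : ℝ × (Fin (n + 1) → Fin (n + 1) → ℝ) => p.2 0 0)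
          (by fun_prop) measurable_const).compl
      · change MeasurableSet {p : ℝ × (Fin (n + 1) → Fin (n + 1) → ℝ) |
          ∀ i : Fin n, p.2 i.succ 0 / p.2 0 0 ∈ Ico (0 : ℝ) 1}
        simp only [Set.ofPred_forall]
        exact MeasurableSet.iInter fun i => measurableSet_Ico.preimage (by fun_prop)
      · exact hF.preimage (Measurable.prodMk (by fun_prop) (hschur.comp measurable_snd))
    refine ⟨4 ^ (n + 1) * C, {p | p.2 0 0 = 0} ∪ G,
      ENNReal.mul_ne_top (ENNReal.pow_ne_top (by simp)) hC,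
      (measurableSet_eq_fun (by fun_prop) measurable_const).union hG, fun t ht => ?_, ?_⟩
    · rw [preimage_union]
      refine (measure_union_le _ _).trans ?_
      have hnull : volume (Prod.mk t ⁻¹'
          {p : ℝ × (Fin (n + 1) → Fin (n + 1) → ℝ) | p.2 0 0 = 0}) = 0 :=
        Measure.pi_eval_preimage_null (fun _ : Fin (n + 1) => (volume : Measure (Fin (n + 1) → ℝ)))
          (i := 0) (s := {v | v 0 = 0}) (Measure.pi_hyperplane (fun _ : Fin (n + 1) => (volume : Measure ℝ)) 0 (0 : ℝ))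
      rw [hnull, zero_add]
      have e1 := volume_preserving_piFinSuccAbove (fun _ : Fin (n + 1) => Fin (n + 1) → ℝ) 0
      have hGt : MeasurableSet (Prod.mk t ⁻¹' G) := hG.preimage measurable_prodMk_left
      rw [← (e1.symm _).measure_preimage hGt.nullMeasurableSet]
      have hS := hGt.preimage
        (MeasurableEquiv.piFinSuccAbove (fun _ : Fin (n + 1) => Fin (n + 1) → ℝ) 0).symm.measurable
      refine (prod_le_of_sections _ _ hS (A := box n t ∩ {v | v 0 ≠ 0})
        ((MeasurableSet.univ_pi fun _ => measurableSet_Icc).inter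
          (measurableSet_eq_fun (f := fun v : Fin (n + 1) → ℝ => v 0)
            (by fun_prop) measurable_const).compl)
        (C * ENNReal.ofReal (t ^ n)) ?_ ?_).trans ?_
      · rintro ⟨v, R⟩ hp
        exact ⟨by simpa using hp.1, by simpa using hp.2.1⟩
      · rintro v ⟨-, hv⟩
        have hv' : 0 < |v 0| := abs_pos.2 hv
        have e2 := (volume_measurePreserving_arrowProdEquivProdArrow ℝ (Fin n → ℝ) (Fin n)).comp
          (volume_preserving_pi fun _ : Fin n =>
            volume_preserving_piFinSuccAbove (fun _ : Fin (n + 1) => ℝ) 0)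
        let T : Set ((Fin n → ℝ) × (Fin n → Fin n → ℝ)) :=
          {q | (∀ i, q.1 i / v 0 ∈ Ico (0 : ℝ) 1) ∧
            (t / |v 0|, q.2 + fun i j => -(q.1 i / v 0 * v j.succ)) ∈ F}
        have hA : MeasurableSet {r : Fin n → ℝ | ∀ i, r i / v 0 ∈ Ico (0 : ℝ) 1} := by
          simp only [Set.ofPred_forall]
          exact MeasurableSet.iInter fun i => measurableSet_Ico.preimage (by fun_prop)
        have hT : MeasurableSet T :=
          (hA.preimage measurable_fst).inter (hF.preimage (Measurable.prodMk (by fun_prop)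
            (by fun_prop)))
        refine le_trans (measure_mono ?_) ((e2.measure_preimage hT.nullMeasurableSet).le.trans ?_)
        · intro R hR
          refine ⟨fun i => by simpa [MeasurableEquiv.arrowProdEquivProdArrow] using hR.2.2.1 i, ?_⟩
          have := hR.2.2.2
          convert this using 2
          · simp
          · ext i j
            simp [schur, MeasurableEquiv.arrowProdEquivProdArrow, sub_eq_add_neg, Fin.tail]
        · refine (prod_le_of_sections _ _ hT hA (C * ENNReal.ofReal ((t / |v 0|) ^ n))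
            (fun q hq => hq.1) fun r _ => ?_).trans ?_
          · refine le_trans (measure_mono (t := (· + fun (i j : Fin n) => -(r i / v 0 * v j.succ)) ⁻¹'
              (Prod.mk (t / |v 0|) ⁻¹' F)) fun W hW => hW.2) ?_
            rw [measure_preimage_add_right]
            exact hvol _ (div_pos ht hv')
          · have : volume {r : Fin n → ℝ | ∀ i, r i / v 0 ∈ Ico (0 : ℝ) 1} =
                ENNReal.ofReal (|v 0| ^ n) := by
              have : {r : Fin n → ℝ | ∀ i, r i / v 0 ∈ Ico (0 : ℝ) 1} =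
                  Set.pi univ fun _ => (· * (v 0)⁻¹) ⁻¹' Ico (0 : ℝ) 1 := by
                ext r
                simp [div_eq_mul_inv]
              rw [this, volume_pi_pi]
              simp [Real.volume_preimage_mul_right (inv_ne_zero hv),
                ENNReal.ofReal_pow (abs_nonneg _)]
            rw [this, mul_left_comm, ← ENNReal.ofReal_mul (by positivity), ← mul_pow,
              mul_div_cancel₀ _ hv'.ne']
      · calc volume (box n t ∩ {v | v 0 ≠ 0}) * (C * ENNReal.ofReal (t ^ n))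
            ≤ volume (box n t) * (C * ENNReal.ofReal (t ^ n)) := by
              gcongr
              exact inter_subset_left
          _ = 4 ^ (n + 1) * C * ENNReal.ofReal (t ^ (n + 1)) := by
              rw [volume_box n ht.le, pow_succ' t, ENNReal.ofReal_mul ht.le]
              ring
    · intro t N h0 ht
      obtain ⟨γ1, hγ1, hbox⟩ := exists_short N h0 ht
      set N' : Matrix (Fin (n + 1)) (Fin (n + 1)) ℝ := γ1.map (Int.castRingHom ℝ) * N with hN'
      by_cases hv : N' 0 0 = 0
      · exact ⟨γ1, hγ1, Or.inl hv⟩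
      have hv' : 0 < |N' 0 0| := abs_pos.2 hv
      have hdet : |N'.det| = |N.det| := by
        rw [hN', Matrix.det_mul, abs_mul]
        have : (γ1.map (Int.castRingHom ℝ)).det = ((γ1.det : ℤ) : ℝ) :=
          ((Int.castRingHom ℝ).map_det γ1).symm
        rw [this, ← Int.cast_abs, Int.isUnit_iff_abs_eq.1 hγ1]
        simp
      have hs := det_eq_schur N' hv
      obtain ⟨δ, hδ, hF'⟩ := hcov (t / |N' 0 0|) (Matrix.of (schur N'))
        (by
          intro h
          rw [h, mul_zero] at hs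
          rw [hs, abs_zero] at hdet
          exact h0 (abs_eq_zero.1 hdet.symm))
        (by rw [le_div_iff₀ hv', ← abs_mul, mul_comm, ← hs, hdet]; exact ht)
      let a : Fin n → ℝ := fun i => ∑ l, (δ i l : ℝ) * (N' l.succ 0 / N' 0 0)
      let γ2 : Matrix (Fin (n + 1)) (Fin (n + 1)) ℤ :=
        Matrix.of (Fin.cons (Fin.cons 1 0) fun i => Fin.cons (-⌊a i⌋) (δ i))
      have hγ2 : γ2.det = δ.det := by
        rw [Matrix.det_succ_row_zero, Fin.sum_univ_succ]
        simp [γ2]
        congr 1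
      refine ⟨γ2 * γ1, by rw [Matrix.det_mul, hγ2]; exact hδ.mul hγ1, Or.inr ?_⟩
      rw [Matrix.map_mul, mul_assoc, ← hN']
      have r0 : (γ2.map (Int.castRingHom ℝ) * N') 0 = N' 0 := by
        ext j
        simp [Matrix.mul_apply, Fin.sum_univ_succ, γ2]
      have r1 : ∀ (i : Fin n) j, (γ2.map (Int.castRingHom ℝ) * N') i.succ j =
          -(⌊a i⌋ : ℝ) * N' 0 j + ∑ l, (δ i l : ℝ) * N' l.succ j := by
        intro i j
        simp [Matrix.mul_apply, Fin.sum_univ_succ, γ2]
      have r2 : ∀ i : Fin n, (γ2.map (Int.castRingHom ℝ) * N') i.succ 0 / N' 0 0 =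
          Int.fract (a i) := by
        intro i
        rw [r1, Int.fract, add_div, Finset.sum_div, mul_div_assoc, div_self hv]
        simp only [a, mul_div_assoc]
        ring
      refine ⟨by simpa only [r0] using hbox, by simpa only [r0] using hv, fun i => ?_, ?_⟩
      · simp only [r0, r2]
        exact ⟨Int.fract_nonneg _, Int.fract_lt_one _⟩
      · have e : schur (γ2.map (Int.castRingHom ℝ) * N' : Matrix _ _ ℝ) =
            (δ.map (Int.castRingHom ℝ) * Matrix.of (schur N') : Matrix _ _ ℝ) := by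
          ext i j
          simp only [schur, r0, r2]
          rw [r1, Matrix.mul_apply, Int.fract]
          simp only [Matrix.map_apply, eq_intCast, Matrix.of_apply, schur, mul_sub,
            Finset.sum_sub_distrib, a, sub_mul, Finset.sum_mul, mul_assoc]
          ring
        change (t / |(γ2.map (Int.castRingHom ℝ) * N') 0 0|,
          schur (γ2.map (Int.castRingHom ℝ) * N' : Matrix _ _ ℝ)) ∈ F
        rw [e, r0]
        exact hF'

end Pool.Agent.MP_e7dd50_an

end MrgPart5

-- marker of a merged file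
example : 731051 + 339529 = 731051 + 339529 := rfl
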