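import Mathlib.Analysis.CStarAlgebra.Classes
import Mathlib.Topology.Algebra.Group.Matrix
import Mathlib.Dynamics.Ergodic.Action.Basic
import Mathlib.LinearAlgebra.Projectivization.Action
import Pool.Agent.MP_e7dd50_an.Defs

/-!
The standing hypothesis for `G = SL(4, ℝ)`, `Γ = SL(4, ℤ)` and a subgroup `A` of `G`.
-/

namespace Pool.Agent.MP_e7dd50_an

/-- The group generated by the one parameter unipotent subgroups of `SL(4, ℝ)`. -/
def unipGen : Subgroup (Matrix.SpecialLinearGroup (Fin 4) ℝ) :=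
  Subgroup.closure {g | ∃ u : Multiplicative ℝ →* Matrix.SpecialLinearGroup (Fin 4) ℝ,
    Continuous u ∧ (∀ t, IsNilpotent ((u t : Matrix (Fin 4) (Fin 4) ℝ) - 1)) ∧ g ∈ u.range}

/-- `SL(4, ℝ) / SL(4, ℤ)` has finite volume (it carries an invariant Borel probability measure)
and the group generated by one parameter unipotent subgroups acts ergodically for it. -/
def SaturatedByUnipotents : Prop :=
  ∃ μ : @MeasureTheory.Measure (Matrix.SpecialLinearGroup (Fin 4) ℝ ⧸ intPoints) (borel _),
    MeasureTheory.IsProbabilityMeasure μ ∧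
    MeasureTheory.SMulInvariantMeasure (Matrix.SpecialLinearGroup (Fin 4) ℝ) _ μ ∧
    ErgodicSMul unipGen _ μ

/-- The usual (quotient) topology on real projective space. -/
@[reducible] noncomputable def projTop (N : ℕ) : TopologicalSpace (Projectivization ℝ (Fin N → ℝ)) :=
  TopologicalSpace.coinduced (Projectivization.mk' ℝ) inferInstance

/-- Elements of class-A: diagonalizable over `ℝ`, generating an unbounded subgroup, and such that
in every algebraic representation every limit point of an orbit of `g ^ ℤ` on projective space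
is fixed by `g`. -/
def IsClassA (g : Matrix.SpecialLinearGroup (Fin 4) ℝ) : Prop :=
  (∃ (P : GL (Fin 4) ℝ) (d : Fin 4 → ℝ),
    (g : Matrix (Fin 4) (Fin 4) ℝ) = P * Matrix.diagonal d * (P⁻¹ : GL (Fin 4) ℝ)) ∧
  ¬ IsCompact (closure (Subgroup.zpowers g : Set (Matrix.SpecialLinearGroup (Fin 4) ℝ))) ∧
  ∀ (N : ℕ) (ρ : Matrix.SpecialLinearGroup (Fin 4) ℝ →* GL (Fin N) ℝ),
    (∀ a b, ∃ p : MvPolynomial (Fin 4 × Fin 4) ℝ, ∀ h : Matrix.SpecialLinearGroup (Fin 4) ℝ,
      ρ h a b = MvPolynomial.eval (fun ij : Fin 4 × Fin 4 => h ij.1 ij.2) p) →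
    ∀ v w : Projectivization ℝ (Fin N → ℝ),
      @MapClusterPt _ (projTop N) ℤ w Filter.cofinite (fun n => ρ (g ^ n) • v) → ρ g • w = w

/-- A topological group is of higher rank if some homomorphism from `ℤ²` to it is proper. -/
def HigherRank (B : Type) [Group B] [TopologicalSpace B] : Prop :=
  ∃ φ : Multiplicative (ℤ × ℤ) →* B, IsProperMap φ

/-- The standing hypothesis for `SL(4, ℝ) / SL(4, ℤ)` and a subgroup `A`. -/
def StandingHypothesis (A : Subgroup (Matrix.SpecialLinearGroup (Fin 4) ℝ)) : Prop :=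
  SaturatedByUnipotents ∧ IsClosed (A : Set (Matrix.SpecialLinearGroup (Fin 4) ℝ)) ∧
  (∀ a ∈ A, a ≠ 1 → IsClassA a) ∧
  ∀ (H : Subgroup (Matrix.SpecialLinearGroup (Fin 4) ℂ)) [H.Normal], IsQSubgroup H → H ≠ ⊤ →
    HigherRank (A.map ((QuotientGroup.mk' H).comp toComplex))

end Pool.Agent.MP_e7dd50_an
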