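import Mathlib.LinearAlgebra.Matrix.ZPow
import Mathlib.Algebra.Ring.IsFormallyReal
import Mathlib.Topology.Algebra.ProperAction.Basic
import Mathlib.Topology.Compactness.CompactlyGeneratedSpace
import Mathlib.Dynamics.Ergodic.Action.Regular
import Mathlib.LinearAlgebra.Projectivization.PSL.PSL2
import Mathlib.Order.CompletePartialOrder
import Mathlib.RingTheory.TotallySplit
import Pool.Agent.MP_e7dd50_an.Reduction
import Pool.Agent.MP_e7dd50_an.Hyp

-- ======== part 0: formerly Pool.Agent.MP_e7dd50_an.ClassA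
section MrgPart0

/-!
Nontrivial positive diagonal matrices are of class-A.
-/

open Matrix Set Topology Filter

namespace Pool.Agent.MP_e7dd50_an

lemma exp_limit {ι V : Type*} [NormedAddCommGroup V] [NormedSpace ℝ V] (s : Finset ι)
    (hs : s.Nonempty) (lam : ι → ℝ) (hpos : ∀ i ∈ s, 0 < lam i) (hinj : Set.InjOn lam s)
    (c : ι → V) : ∃ i ∈ s,
      Tendsto (fun n : ℕ => (lam i)⁻¹ ^ n • ∑ j ∈ s, lam j ^ n • c j) atTop (𝓝 (c i)) := by
  classical
  obtain ⟨i, hi, hmax⟩ := s.exists_max_image lam hs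
  refine ⟨i, hi, ?_⟩
  have h1 : c i = ∑ j ∈ s, if j = i then c i else 0 := by simp [hi]
  rw [h1]
  simp only [Finset.smul_sum, smul_smul, ← mul_pow]
  refine tendsto_finsetSum _ fun j hj => ?_
  by_cases hji : j = i
  · subst hji
    simp [inv_mul_cancel₀ (hpos j hj).ne']
  · rw [if_neg hji]
    have hlt : lam j < lam i := lt_of_le_of_ne (hmax j hj) fun h => hji (hinj hj hi h)
    have h2 : (lam i)⁻¹ * lam j < 1 := by
      rw [inv_mul_lt_iff₀ (hpos i hi)]
      simpa using hlt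
    have h3 := tendsto_pow_atTop_nhds_zero_of_lt_one
      (mul_pos (inv_pos.2 (hpos i hi)) (hpos j hj)).le h2
    simpa using h3.smul_const (c j)

/-- A scale invariant function measuring the failure of `x` to be an eigenvector of `T`. -/
noncomputable def defect {N : ℕ} (T : Matrix (Fin N) (Fin N) ℝ) (x : Fin N → ℝ) : ℝ :=
  (∑ i, ∑ j, ((T *ᵥ x) i * x j - (T *ᵥ x) j * x i) ^ 2) / (∑ i, x i ^ 2) ^ 2

lemma defect_smul {N : ℕ} (T : Matrix (Fin N) (Fin N) ℝ) (x : Fin N → ℝ) {a : ℝ} (ha : a ≠ 0) :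
    defect T (a • x) = defect T x := by
  have h1 : (∑ i, ∑ j, ((T *ᵥ (a • x)) i * (a • x) j - (T *ᵥ (a • x)) j * (a • x) i) ^ 2) =
      a ^ 4 * ∑ i, ∑ j, ((T *ᵥ x) i * x j - (T *ᵥ x) j * x i) ^ 2 := by
    simp only [Matrix.mulVec_smul, Pi.smul_apply, smul_eq_mul, Finset.mul_sum]
    exact Finset.sum_congr rfl fun i _ => Finset.sum_congr rfl fun j _ => by ring
  have h2 : (∑ i, (a • x) i ^ 2) ^ 2 = a ^ 4 * (∑ i, x i ^ 2) ^ 2 := by
    simp only [Pi.smul_apply, smul_eq_mul, mul_pow, ← Finset.mul_sum]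
    ring
  rw [defect, defect, h1, h2, mul_div_mul_left _ _ (pow_ne_zero _ ha)]

lemma sum_sq_ne_zero {N : ℕ} {x : Fin N → ℝ} (hx : x ≠ 0) : (∑ i, x i ^ 2) ^ 2 ≠ 0 := by
  refine pow_ne_zero _ fun h => hx ?_
  rw [Finset.sum_eq_zero_iff_of_nonneg fun i _ => sq_nonneg _] at h
  funext i
  simpa using h i (Finset.mem_univ i)

lemma continuousAt_defect {N : ℕ} (T : Matrix (Fin N) (Fin N) ℝ) {x : Fin N → ℝ} (hx : x ≠ 0) :
    ContinuousAt (defect T) x := by
  have hT : Continuous fun x : Fin N → ℝ => T *ᵥ x := continuous_const.matrix_mulVec continuous_id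
  refine ContinuousAt.div (Continuous.continuousAt ?_) (Continuous.continuousAt (by fun_prop))
    (sum_sq_ne_zero hx)
  refine continuous_finsetSum _ fun i _ => continuous_finsetSum _ fun j _ => ?_
  exact ((((continuous_apply i).comp hT).mul (continuous_apply j)).sub
    (((continuous_apply j).comp hT).mul (continuous_apply i))).pow 2

lemma defect_eq_zero {N : ℕ} (T : Matrix (Fin N) (Fin N) ℝ) {x : Fin N → ℝ} {a : ℝ}
    (h : T *ᵥ x = a • x) : defect T x = 0 := by
  rw [defect, h, Finset.sum_eq_zero, zero_div]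
  exact fun i _ => Finset.sum_eq_zero fun j _ => by simp; ring

lemma exists_of_defect_eq_zero {N : ℕ} (T : Matrix (Fin N) (Fin N) ℝ) {x : Fin N → ℝ} (hx : x ≠ 0)
    (h : defect T x = 0) : ∃ a : ℝ, a • x = T *ᵥ x := by
  rw [defect, div_eq_zero_iff, or_iff_left (sum_sq_ne_zero hx),
    Finset.sum_eq_zero_iff_of_nonneg fun i _ => Finset.sum_nonneg fun j _ => sq_nonneg _] at h
  obtain ⟨i, hi⟩ := Function.ne_iff.1 hx
  have hi' : x i ≠ 0 := hi
  refine ⟨(T *ᵥ x) i / x i, funext fun j => ?_⟩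
  have h1 := h i (Finset.mem_univ i)
  rw [Finset.sum_eq_zero_iff_of_nonneg fun j _ => sq_nonneg _] at h1
  have h2 := pow_eq_zero_iff two_ne_zero |>.1 (h1 j (Finset.mem_univ j))
  simp only [Pi.smul_apply, smul_eq_mul]
  field_simp
  linarith

lemma tendsto_defect {ι : Type*} {N : ℕ} (T : Matrix (Fin N) (Fin N) ℝ) (s : Finset ι)
    (hs : s.Nonempty) (lam : ι → ℝ) (hpos : ∀ i ∈ s, 0 < lam i) (hinj : Set.InjOn lam s)
    (c : ι → Fin N → ℝ) (hc : ∀ i ∈ s, c i ≠ 0) (x : ℕ → Fin N → ℝ)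
    (hx : ∀ n, x n = ∑ j ∈ s, lam j ^ n • c j)
    (hT : (∀ n, T *ᵥ x n = x (n + 1)) ∨ ∀ n, T *ᵥ x (n + 1) = x n) :
    Tendsto (fun n => defect T (x n)) atTop (𝓝 0) := by
  obtain ⟨i, hi, h⟩ := exp_limit s hs lam hpos hinj c
  simp only [← hx] at h
  have hl := (hpos i hi).ne'
  have hTc : Continuous fun x : Fin N → ℝ => T *ᵥ x := continuous_const.matrix_mulVec continuous_id
  have h' := (tendsto_add_atTop_iff_nat 1).2 h
  have h0 : defect T (c i) = 0 := by
    rcases hT with hT | hT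
    · refine defect_eq_zero T (a := lam i)
        (tendsto_nhds_unique ((hTc.tendsto _).comp h) ((h'.const_smul (lam i)).congr fun n => ?_))
      simp only [Function.comp, Matrix.mulVec_smul, hT, smul_smul]
      congr 1
      rw [pow_succ', ← mul_assoc, mul_inv_cancel₀ hl, one_mul]
    · refine defect_eq_zero T (a := (lam i)⁻¹)
        (tendsto_nhds_unique ((hTc.tendsto _).comp h') ((h.const_smul (lam i)⁻¹).congr fun n => ?_))
      simp only [Function.comp, Matrix.mulVec_smul, hT, smul_smul]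
      congr 1
      ring
  have h2 := (continuousAt_defect T (hc i hi)).tendsto.comp h
  rw [h0] at h2
  exact h2.congr fun n => defect_smul T _ (pow_ne_zero _ (inv_ne_zero hl))

/-- Finite combinations of exponentials with positive base. -/
def expSpan : Submodule ℝ (ℤ → ℝ) :=
  Submodule.span ℝ (Set.range fun l : Ioi (0 : ℝ) => fun n : ℤ => (l : ℝ) ^ n)

lemma exp_mem (l : ℝ) (hl : 0 < l) : (fun n : ℤ => l ^ n) ∈ expSpan :=
  Submodule.subset_span ⟨⟨l, hl⟩, rfl⟩

lemma expSpan_mul {f g : ℤ → ℝ} (hf : f ∈ expSpan) (hg : g ∈ expSpan) : f * g ∈ expSpan := by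
  induction hf, hg using Submodule.span_induction₂ with
  | mem_mem x y hx hy =>
    obtain ⟨l, rfl⟩ := hx
    obtain ⟨m, rfl⟩ := hy
    convert exp_mem (l * m) (mul_pos l.2 m.2) using 1
    funext n
    simp [mul_zpow]
  | zero_left y hy => simp
  | zero_right x hx => simp
  | add_left x y z hx hy hz h1 h2 => rw [add_mul]; exact add_mem h1 h2
  | add_right x y z hx hy hz h1 h2 => rw [mul_add]; exact add_mem h1 h2
  | smul_left r x y hx hy h => rw [smul_mul_assoc]; exact Submodule.smul_mem _ _ h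
  | smul_right r x y hx hy h => rw [mul_smul_comm]; exact Submodule.smul_mem _ _ h

lemma const_mem (r : ℝ) : (fun _ : ℤ => r) ∈ expSpan := by
  convert expSpan.smul_mem r (exp_mem 1 one_pos) using 1
  funext n
  simp

lemma eval_mem {σ : Type*} (f : σ → ℤ → ℝ) (hf : ∀ s, f s ∈ expSpan) (p : MvPolynomial σ ℝ) :
    (fun n => MvPolynomial.eval (fun s => f s n) p) ∈ expSpan := by
  induction p using MvPolynomial.induction_on with
  | C a => simpa using const_mem a
  | add p q hp hq =>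
    convert add_mem hp hq using 1
    funext n
    simp
  | mul_X p s hp =>
    convert expSpan_mul hp (hf s) using 1
    funext n
    simp

lemma exists_expansion {N : ℕ} (x : ℤ → Fin N → ℝ) (hx : ∀ a, (fun n => x n a) ∈ expSpan) :
    ∃ c : Ioi (0 : ℝ) →₀ (Fin N → ℝ), ∀ n, x n = ∑ l ∈ c.support, (l : ℝ) ^ n • c l := by
  classical
  choose c hc using fun a => (Finsupp.mem_span_range_iff_exists_finsupp).1 (hx a)
  refine ⟨∑ a, (c a).mapRange (fun r => Pi.single a r) (by simp), fun n => ?_⟩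
  change x n = Finsupp.sum _ fun (l : Ioi (0 : ℝ)) (u : Fin N → ℝ) => (l : ℝ) ^ n • u
  rw [← Finsupp.sum_finsetSum_index (by simp) (by simp [smul_add])]
  funext b
  rw [Finset.sum_apply, Finset.sum_eq_single b]
  · rw [Finsupp.sum_mapRange_index (by simp), ← congrFun (hc b) n]
    simp [Finsupp.sum, mul_comm]
  · intro a _ hab
    rw [Finsupp.sum_mapRange_index (by simp)]
    simp [Finsupp.sum, Pi.single_eq_of_ne hab.symm]
  · simp

lemma zpow_coe {g : Matrix.SpecialLinearGroup (Fin 4) ℝ} {a : Fin 4 → ℝ} (ha : ∀ i, 0 < a i)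
    (hg : (g : Matrix (Fin 4) (Fin 4) ℝ) = diagonal a) (n : ℤ) :
    ((g ^ n : Matrix.SpecialLinearGroup (Fin 4) ℝ) : Matrix (Fin 4) (Fin 4) ℝ) =
      diagonal fun i => a i ^ n := by
  have step : ∀ n : ℤ, ((g ^ (n + 1) : Matrix.SpecialLinearGroup (Fin 4) ℝ) :
      Matrix (Fin 4) (Fin 4) ℝ) =
      ((g ^ n : Matrix.SpecialLinearGroup (Fin 4) ℝ) : Matrix (Fin 4) (Fin 4) ℝ) * diagonal a := by
    intro n
    rw [_root_.zpow_add_one, Matrix.SpecialLinearGroup.coe_mul, hg]
  induction n using Int.induction_on with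
  | zero => simp
  | succ n ih =>
    rw [step, ih, diagonal_mul_diagonal]
    simp only [zpow_add_one₀ (ha _).ne']
  | pred n ih =>
    have h := step (-(n : ℤ) - 1)
    rw [sub_add_cancel, ih] at h
    have h2 : diagonal a * diagonal (fun i => (a i)⁻¹) = (1 : Matrix (Fin 4) (Fin 4) ℝ) := by
      rw [diagonal_mul_diagonal, ← diagonal_one]
      congr 1
      funext i
      exact mul_inv_cancel₀ (ha i).ne'
    rw [← mul_one ((g ^ (-(n : ℤ) - 1) : Matrix.SpecialLinearGroup (Fin 4) ℝ) :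
      Matrix (Fin 4) (Fin 4) ℝ), ← h2, ← mul_assoc, ← h, diagonal_mul_diagonal]
    congr 1
    funext i
    rw [zpow_sub_one₀ (ha i).ne']

theorem isClassA_of_mem {g : Matrix.SpecialLinearGroup (Fin 4) ℝ} (hg : g ∈ posDiag)
    (hne : g ≠ 1) : IsClassA g := by
  obtain ⟨a, ha, hga⟩ := hg
  refine ⟨⟨1, a, by simpa using hga⟩, ?_, ?_⟩
  · intro hc
    obtain ⟨i, hi⟩ : ∃ i, a i ≠ 1 := by
      by_contra h
      push Not at h
      apply hne
      apply Subtype.ext
      rw [hga, show a = fun _ => 1 from funext h]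
      simp
    have hcont : Continuous fun h : Matrix.SpecialLinearGroup (Fin 4) ℝ => h i i :=
      continuous_subtype_val.matrix_elem i i
    obtain ⟨B, hB⟩ := (hc.image hcont).bddAbove
    have hle : ∀ n : ℤ, a i ^ n ≤ B := fun n =>
      hB ⟨g ^ n, subset_closure ⟨n, rfl⟩, by simp only [zpow_coe ha hga, diagonal_apply_eq]⟩
    rcases lt_or_gt_of_ne hi with h | h
    · obtain ⟨n, hn⟩ := pow_unbounded_of_one_lt B ((one_lt_inv₀ (ha i)).2 h)
      have := hle (-(n : ℤ))
      rw [_root_.zpow_neg, zpow_natCast, ← inv_pow] at this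
      exact absurd hn this.not_gt
    · obtain ⟨n, hn⟩ := pow_unbounded_of_one_lt B h
      have := hle n
      rw [zpow_natCast] at this
      exact absurd hn this.not_gt
  · intro N ρ hρ v w hw
    induction v using Projectivization.ind with | _ v hv => ?_
    induction w using Projectivization.ind with | _ w hw0 => ?_
    let T : Matrix (Fin N) (Fin N) ℝ := ρ g
    let x : ℤ → Fin N → ℝ := fun n => (ρ (g ^ n) : Matrix (Fin N) (Fin N) ℝ) *ᵥ v
    have hstep : ∀ n, T *ᵥ x n = x (n + 1) := by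
      intro n
      simp only [T, x, Matrix.mulVec_mulVec]
      rw [add_comm, _root_.zpow_one_add, map_mul, Units.val_mul]
    obtain ⟨c, hc⟩ := exists_expansion x fun a' => by
      have : (fun n => x n a') = ∑ b, fun n : ℤ => ρ (g ^ n) a' b * v b := by
        funext n
        simp [x, Matrix.mulVec, dotProduct]
      rw [this]
      refine Submodule.sum_mem _ fun b _ => expSpan_mul (f := fun n : ℤ => ρ (g ^ n) a' b)
        (g := fun _ => v b) ?_ (const_mem _)
      obtain ⟨p, hp⟩ := hρ a' b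
      simp only [hp]
      refine eval_mem (fun (ij : Fin 4 × Fin 4) (n : ℤ) =>
        (g ^ n : Matrix.SpecialLinearGroup (Fin 4) ℝ) ij.1 ij.2) (fun ij => ?_) p
      simp only [zpow_coe ha hga, diagonal_apply]
      split_ifs
      · exact exp_mem _ (ha _)
      · exact const_mem 0
    have hsupp : c.support.Nonempty := by
      rw [Finset.nonempty_iff_ne_empty]
      intro h
      have := hc 0
      rw [h] at this
      exact hv (by simpa [x] using this)
    have hcne : ∀ l ∈ c.support, c l ≠ 0 := fun l hl => Finsupp.mem_support_iff.1 hl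
    have t1 : Tendsto (fun n : ℕ => defect T (x n)) atTop (𝓝 0) :=
      tendsto_defect T c.support hsupp (fun l => (l : ℝ)) (fun l _ => l.2)
        Subtype.val_injective.injOn c hcne (fun n => x n) (fun n => by simp [hc])
        (Or.inl fun n => by rw [hstep]; norm_cast)
    have t2 : Tendsto (fun n : ℕ => defect T (x (-n))) atTop (𝓝 0) :=
      tendsto_defect T c.support hsupp (fun l => (l : ℝ)⁻¹) (fun l _ => inv_pos.2 l.2)
        (fun l _ m _ h => Subtype.ext (inv_injective h)) c hcne (fun n => x (-n))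
        (fun n => by simp [hc]) (Or.inr fun n => by rw [hstep]; congr 1; push_cast; ring)
    have t3 : Tendsto (fun n : ℤ => defect T (x n)) cofinite (𝓝 0) := by
      rw [Int.cofinite_eq, tendsto_sup, ← Filter.map_neg_atTop, ← Nat.map_cast_int_atTop,
        tendsto_map'_iff, tendsto_map'_iff]
      exact ⟨t2, t1⟩
    let F : Projectivization ℝ (Fin N → ℝ) → ℝ := Projectivization.lift (fun y => defect T y.1)
      fun y z t h => by
        have ht : t ≠ 0 := by
          rintro rfl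
          exact y.2 (by simpa using h)
        simp only [h, defect_smul T _ ht]
    let := projTop N
    have hF : Continuous F := by
      rw [continuous_coinduced_dom, continuous_iff_continuousAt]
      intro y
      exact (continuousAt_defect T y.2).comp continuous_subtype_val.continuousAt
    have h1 : MapClusterPt (F (Projectivization.mk ℝ w hw0)) cofinite fun n => defect T (x n) :=
      hw.continuousAt_comp hF.continuousAt
    have h2 : defect T w = 0 := eq_of_nhds_neBot (h1.clusterPt.mono t3).neBot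
    obtain ⟨r, hr⟩ := exists_of_defect_eq_zero T hw0 h2
    rw [Projectivization.smul_mk, Projectivization.mk_eq_mk_iff']
    exact ⟨r, hr⟩

end Pool.Agent.MP_e7dd50_an

end MrgPart0

-- ======== part 1: formerly Pool.Agent.MP_e7dd50_an.QuotMeasure
section MrgPart1

/-!
An invariant ergodic probability measure on `G ⧸ Γ` from a bi-invariant measure on `G` giving finite
mass to fundamental domains.
-/

open MeasureTheory Set Topology Filter
open scoped Pointwise

namespace Pool.Agent.MP_e7dd50_an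

variable {G : Type*} [Group G] [TopologicalSpace G] [IsTopologicalGroup G]
  [SecondCountableTopology G] [MeasurableSpace G] [BorelSpace G]

lemma exists_fundamentalDomain (Γ : Subgroup G)
    (hdisc : ∃ V ∈ 𝓝 (1 : G), ∀ γ ∈ Γ, γ ∈ V → γ = 1) :
    ∃ D : Set G, MeasurableSet D ∧ ∀ x : G, ∃! γ : Γ.op, γ • x ∈ D := by
  classical
  obtain ⟨V, hV, hΓ⟩ := hdisc
  have h1 : ∀ᶠ p : G × G in 𝓝 (1, 1), p.1⁻¹ * p.2 ∈ V := by
    have : Continuous fun p : G × G => p.1⁻¹ * p.2 := by fun_prop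
    exact this.continuousAt.eventually_mem (by simpa using hV)
  obtain ⟨W1, hW1, W2, hW2, hW⟩ := mem_nhds_prod_iff.1 h1
  obtain ⟨W, hWsub, hWo, hW1'⟩ := mem_nhds_iff.1 (inter_mem hW1 hW2)
  have hWV : ∀ a ∈ W, ∀ b ∈ W, a⁻¹ * b ∈ V := fun a ha b hb =>
    hW (show (a, b) ∈ W1 ×ˢ W2 from ⟨(hWsub ha).1, (hWsub hb).2⟩)
  have : Nonempty G := ⟨1⟩
  obtain ⟨x, hx⟩ := TopologicalSpace.exists_dense_seq G
  let U : ℕ → Set G := fun n => {y | (x n)⁻¹ * y ∈ W}
  have hUo : ∀ n, IsOpen (U n) := fun n => hWo.preimage (by fun_prop)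
  let S : ℕ → Set G := fun n => {y | ∃ γ ∈ Γ, y * γ ∈ U n}
  have hSo : ∀ n, IsOpen (S n) := by
    intro n
    have : S n = ⋃ γ ∈ Γ, (· * γ) ⁻¹' U n := by
      ext y
      simp [S]
    rw [this]
    exact isOpen_biUnion fun γ _ => (hUo n).preimage (by fun_prop)
  have hcov : ∀ y, ∃ n, y ∈ S n := by
    intro y
    obtain ⟨n, hn⟩ := hx.exists_mem_open (s := {z | z⁻¹ * y ∈ W}) (hWo.preimage (by fun_prop))
      ⟨y, by simpa using hW1'⟩
    exact ⟨n, 1, Γ.one_mem, by simpa [U] using hn⟩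
  refine ⟨⋃ n, U n \ ⋃ m ∈ Iio n, S m, MeasurableSet.iUnion fun n => (hUo n).measurableSet.diff
    (isOpen_biUnion fun m _ => hSo m).measurableSet, fun y => ?_⟩
  have hmin : ∀ γ ∈ Γ, y * γ ∈ (⋃ n, U n \ ⋃ m ∈ Iio n, S m) ↔ y * γ ∈ U (Nat.find (hcov y)) := by
    intro γ hγ
    have hS : ∀ m, y * γ ∈ S m ↔ y ∈ S m := fun m =>
      ⟨fun ⟨δ, hδ, h⟩ => ⟨γ * δ, Γ.mul_mem hγ hδ, by rwa [← mul_assoc]⟩,
        fun ⟨δ, hδ, h⟩ => ⟨γ⁻¹ * δ, Γ.mul_mem (Γ.inv_mem hγ) hδ, by simpa [mul_assoc] using h⟩⟩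
    constructor
    · intro h
      obtain ⟨n, hn1, hn2⟩ := mem_iUnion.1 h
      have : Nat.find (hcov y) = n := by
        rw [Nat.find_eq_iff]
        exact ⟨⟨γ, hγ, hn1⟩, fun m hm h => hn2 (mem_biUnion hm ((hS m).2 h))⟩
      rwa [this]
    · intro h
      refine mem_iUnion.2 ⟨_, h, fun h' => ?_⟩
      obtain ⟨m, hm, h''⟩ := mem_iUnion₂.1 h'
      exact Nat.find_min (hcov y) hm ((hS m).1 h'')
  obtain ⟨γ, hγ, h⟩ := Nat.find_spec (hcov y)
  refine ⟨⟨MulOpposite.op γ, hγ⟩, (hmin γ hγ).2 h, ?_⟩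
  rintro ⟨δ, hδ⟩ h'
  have h2 := (hmin δ.unop hδ).1 h'
  have h3 := hΓ _ (Γ.mul_mem (Γ.inv_mem hγ) hδ) (by simpa [mul_assoc] using hWV _ h _ h2)
  apply Subtype.ext
  apply MulOpposite.unop_injective
  exact (inv_mul_eq_one.1 h3).symm

theorem exists_ergodic_prob (Γ : Subgroup G) [Countable Γ]
    (hdisc : ∃ V ∈ 𝓝 (1 : G), ∀ γ ∈ Γ, γ ∈ V → γ = 1) (ν : Measure G) [SFinite ν]
    [ν.IsMulLeftInvariant] [ν.IsMulRightInvariant] (hν : ν ≠ 0)
    (hfin : ∀ D : Set G, MeasurableSet D → (∀ x : G, ∃! γ : Γ.op, γ • x ∈ D) → ν D ≠ ⊤)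
    [mQ : MeasurableSpace (G ⧸ Γ)] [BorelSpace (G ⧸ Γ)] :
    ∃ μ : Measure (G ⧸ Γ), IsProbabilityMeasure μ ∧ ErgodicSMul G (G ⧸ Γ) μ := by
  obtain ⟨D, hDm, hD⟩ := exists_fundamentalDomain Γ hdisc
  have hfd : IsFundamentalDomain Γ.op D ν := .mk' hDm.nullMeasurableSet hD
  have hπ : Measurable (QuotientGroup.mk : G → G ⧸ Γ) := QuotientGroup.continuous_mk.measurable
  have hinv : ∀ (s : Set (G ⧸ Γ)) (γ : Γ.op),
      (fun x => γ • x) ⁻¹' ((QuotientGroup.mk : G → G ⧸ Γ) ⁻¹' s) = QuotientGroup.mk ⁻¹' s := by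
    rintro s ⟨γ, hγ⟩
    ext x
    have : ((x * γ.unop : G) : G ⧸ Γ) = x := QuotientGroup.mk_mul_of_mem x hγ
    change ((x * γ.unop : G) : G ⧸ Γ) ∈ s ↔ (x : G ⧸ Γ) ∈ s
    rw [this]
  have hD0 : ν D ≠ 0 := hfd.measure_ne_zero hν
  have hDtop : ν D ≠ ⊤ := hfin D hDm hD
  let μ : Measure (G ⧸ Γ) := (ν D)⁻¹ • (ν.restrict D).map QuotientGroup.mk
  have hμ : ∀ s, MeasurableSet s → μ s = (ν D)⁻¹ * ν (QuotientGroup.mk ⁻¹' s ∩ D) := by
    intro s hs
    simp [μ, Measure.map_apply hπ hs, Measure.restrict_apply (hπ hs)]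
  have hsm : ∀ g : G, Measurable fun x : G ⧸ Γ => g • x := fun g =>
    (continuous_const_smul g).measurable
  have hSM : SMulInvariantMeasure G (G ⧸ Γ) μ := by
    refine ⟨fun g s hs => ?_⟩
    rw [hμ _ hs, hμ _ (hsm g hs)]
    congr 1
    rw [hfd.measure_set_eq (hfd.smul_of_comm g) (hπ hs) (hinv s),
      ← measure_preimage_mul ν g (QuotientGroup.mk ⁻¹' s ∩ g • D)]
    congr 1
    ext x
    simp only [mem_inter_iff, mem_preimage]
    refine and_congr Iff.rfl ?_
    exact (Set.smul_mem_smul_set_iff (a := g)).symm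
  have hnull : ∀ s, MeasurableSet s → (μ s = 0 ↔ ν (QuotientGroup.mk ⁻¹' s) = 0) := by
    intro s hs
    rw [hμ s hs, mul_eq_zero, ENNReal.inv_eq_zero, or_iff_right hDtop]
    refine ⟨fun h => hfd.measure_zero_of_invariant _ (fun γ => ?_) h,
      fun h => measure_mono_null inter_subset_left h⟩
    rw [← preimage_smul_inv]
    exact hinv s _
  have hq : Measure.QuasiMeasurePreserving (QuotientGroup.mk : G → G ⧸ Γ) ν μ :=
    ⟨hπ, Measure.AbsolutelyContinuous.mk fun s hs h => by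
      rw [Measure.map_apply hπ hs]
      exact (hnull s hs).1 h⟩
  refine ⟨μ, ⟨?_⟩, ⟨fun {s} hs h => ?_⟩⟩
  · rw [hμ _ MeasurableSet.univ, preimage_univ, univ_inter, ENNReal.inv_mul_cancel hD0 hDtop]
  · have h1 : EventuallyConst ((QuotientGroup.mk : G → G ⧸ Γ) ⁻¹' s) (ae ν) :=
      ErgodicSMul.aeconst_of_forall_preimage_smul_ae_eq (G := G) (hπ hs) fun g =>
        hq.preimage_ae_eq (h g)
    rw [eventuallyConst_set'] at h1 ⊢
    rcases h1 with h1 | h1
    · left
      rw [ae_eq_empty] at h1 ⊢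
      exact (hnull s hs).2 h1
    · right
      rw [ae_eq_univ] at h1 ⊢
      exact (hnull _ hs.compl).2 h1

end Pool.Agent.MP_e7dd50_an

end MrgPart1

-- ======== part 2: formerly Pool.Agent.MP_e7dd50_an.Cone
section MrgPart2

/-!
The cone measure on `SL(4, ℝ)` and finiteness of the covolume of `SL(4, ℤ)`.
-/

open Matrix MeasureTheory Set Topology Filter

namespace Pool.Agent.MP_e7dd50_an

/-- Right multiplication of matrices as a linear map. -/
noncomputable def rmul (B : Matrix (Fin 4) (Fin 4) ℝ) :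
    (Fin 4 → Fin 4 → ℝ) →ₗ[ℝ] (Fin 4 → Fin 4 → ℝ) :=
  LinearMap.pi fun i => (Matrix.toLin' Bᵀ).comp (LinearMap.proj i)

lemma rmul_apply (B : Matrix (Fin 4) (Fin 4) ℝ) (N : Fin 4 → Fin 4 → ℝ) :
    rmul B N = (Matrix.of N * B : Matrix (Fin 4) (Fin 4) ℝ) := by
  ext i j
  simp [rmul, Matrix.mul_apply, Matrix.mulVec, dotProduct, mul_comm]

lemma det_rmul (B : Matrix (Fin 4) (Fin 4) ℝ) : LinearMap.det (rmul B) = B.det ^ 4 := by
  rw [rmul, LinearMap.det_pi]
  simp

/-- Transposition as a linear equivalence. -/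
def trE : (Fin 4 → Fin 4 → ℝ) ≃ₗ[ℝ] (Fin 4 → Fin 4 → ℝ) :=
  Matrix.transposeLinearEquiv (Fin 4) (Fin 4) ℝ ℝ

/-- Left multiplication of matrices as a linear map. -/
noncomputable def lmul (B : Matrix (Fin 4) (Fin 4) ℝ) :
    (Fin 4 → Fin 4 → ℝ) →ₗ[ℝ] (Fin 4 → Fin 4 → ℝ) :=
  (trE : _ →ₗ[ℝ] _) ∘ₗ rmul Bᵀ ∘ₗ (trE.symm : _ →ₗ[ℝ] _)

lemma lmul_apply (B : Matrix (Fin 4) (Fin 4) ℝ) (N : Fin 4 → Fin 4 → ℝ) :
    lmul B N = (B * Matrix.of N : Matrix (Fin 4) (Fin 4) ℝ) := by
  ext i j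
  change rmul Bᵀ (fun a b => N b a) j i = _
  rw [rmul_apply]
  simp [Matrix.mul_apply, mul_comm]

lemma det_lmul (B : Matrix (Fin 4) (Fin 4) ℝ) : LinearMap.det (lmul B) = B.det ^ 4 := by
  rw [lmul, LinearMap.det_conj, det_rmul, det_transpose]

lemma measurePreserving_of_det {f : (Fin 4 → Fin 4 → ℝ) →ₗ[ℝ] (Fin 4 → Fin 4 → ℝ)}
    (hf : |LinearMap.det f| = 1) : MeasurePreserving f volume volume := by
  refine ⟨f.continuous_of_finiteDimensional.measurable, ?_⟩
  have h0 : LinearMap.det f ≠ 0 := by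
    intro h
    simp [h] at hf
  rw [Measure.map_linearMap_addHaar_eq_smul_addHaar _ h0, abs_inv, hf]
  simp

/-- The truncated cone over `SL(4, ℝ)`. -/
def cone : Set (Fin 4 → Fin 4 → ℝ) := {N | (Matrix.of N).det ∈ Ioc (0 : ℝ) 1}

lemma continuous_det4 : Continuous fun N : Fin 4 → Fin 4 → ℝ => (Matrix.of N).det :=
  Continuous.matrix_det (A := fun N : Fin 4 → Fin 4 → ℝ => Matrix.of N) continuous_id

lemma measurableSet_cone : MeasurableSet cone :=
  measurableSet_Ioc.preimage continuous_det4.measurable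

open Classical in
/-- Radial projection of the transpose to `SL(4, ℝ)`. -/
noncomputable def proj (N : Fin 4 → Fin 4 → ℝ) : Matrix.SpecialLinearGroup (Fin 4) ℝ :=
  if h : 0 < (Matrix.of N).det then
    ⟨((Matrix.of N).det ^ (-(1 / 4 : ℝ))) • (Matrix.of N)ᵀ, by
      rw [det_smul, det_transpose, Fintype.card_fin, ← Real.rpow_natCast, ← Real.rpow_mul h.le]
      norm_num
      rw [Real.rpow_neg_one, inv_mul_cancel₀ h.ne']⟩
  else 1

lemma proj_coe {N : Fin 4 → Fin 4 → ℝ} (h : 0 < (Matrix.of N).det) :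
    (proj N : Matrix (Fin 4) (Fin 4) ℝ) = ((Matrix.of N).det ^ (-(1 / 4 : ℝ))) • (Matrix.of N)ᵀ := by
  rw [proj, dif_pos h]

section measure

/-- The Borel sigma-algebra on `SL(4, ℝ)`. -/
@[reducible] def borelSL : MeasurableSpace (Matrix.SpecialLinearGroup (Fin 4) ℝ) := borel _

attribute [local instance] borelSL

lemma borelSpaceSL : BorelSpace (Matrix.SpecialLinearGroup (Fin 4) ℝ) := ⟨rfl⟩

attribute [local instance] borelSpaceSL

lemma secondCountableSL : SecondCountableTopology (Matrix.SpecialLinearGroup (Fin 4) ℝ) :=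
  haveI : SecondCountableTopology (Matrix (Fin 4) (Fin 4) ℝ) :=
    inferInstanceAs (SecondCountableTopology (Fin 4 → Fin 4 → ℝ))
  Matrix.SpecialLinearGroup.isClosedEmbedding_val.isEmbedding.secondCountableTopology

attribute [local instance] secondCountableSL

lemma measurable_proj : Measurable proj := by
  have he : IsClosedEmbedding (fun g : Matrix.SpecialLinearGroup (Fin 4) ℝ =>
      (fun i j => g i j : Fin 4 → Fin 4 → ℝ)) := Matrix.SpecialLinearGroup.isClosedEmbedding_val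
  rw [← he.measurableEmbedding.measurable_comp_iff]
  have : ((fun g : Matrix.SpecialLinearGroup (Fin 4) ℝ => (fun i j => g i j : Fin 4 → Fin 4 → ℝ)) ∘
      proj) = fun N => if 0 < (Matrix.of N).det then
        fun i j => ((Matrix.of N).det ^ (-(1 / 4 : ℝ))) * N j i
        else fun i j => (1 : Matrix (Fin 4) (Fin 4) ℝ) i j := by
    funext N
    by_cases h : 0 < (Matrix.of N).det
    · rw [if_pos h]
      ext i j
      simp [proj_coe h]
    · rw [if_neg h]
      ext i j
      simp [proj, h]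
  rw [this]
  refine Measurable.ite (measurableSet_lt measurable_const continuous_det4.measurable) ?_
    measurable_const
  refine measurable_pi_lambda _ fun i => measurable_pi_lambda _ fun j => ?_
  exact (continuous_det4.measurable.pow_const _).mul (by fun_prop)

/-- The cone measure. -/
noncomputable def coneMeasure : Measure (Matrix.SpecialLinearGroup (Fin 4) ℝ) :=
  (volume.restrict cone).map proj

lemma map_coneMeasure {f : (Fin 4 → Fin 4 → ℝ) →ₗ[ℝ] (Fin 4 → Fin 4 → ℝ)}
    (hf : |LinearMap.det f| = 1) (hdet : ∀ N, (Matrix.of (f N)).det = (Matrix.of N).det)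
    {φ : Matrix.SpecialLinearGroup (Fin 4) ℝ → Matrix.SpecialLinearGroup (Fin 4) ℝ}
    (hφ : Measurable φ) (h : ∀ N ∈ cone, φ (proj N) = proj (f N)) :
    coneMeasure.map φ = coneMeasure := by
  have h1 : f ⁻¹' cone = cone := by
    ext N
    simp [cone, hdet]
  have h2 := (measurePreserving_of_det hf).restrict_preimage measurableSet_cone
  rw [h1] at h2
  rw [coneMeasure, Measure.map_map hφ measurable_proj]
  conv_rhs => rw [← h2.map_eq, Measure.map_map measurable_proj h2.measurable]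
  exact Measure.map_congr (ae_restrict_of_forall_mem measurableSet_cone h)

lemma coneMeasure_left : coneMeasure.IsMulLeftInvariant := by
  refine ⟨fun g => ?_⟩
  have hdet : ∀ N, (Matrix.of (rmul (g : Matrix (Fin 4) (Fin 4) ℝ)ᵀ N)).det = (Matrix.of N).det := by
    intro N
    rw [rmul_apply]
    change (Matrix.of N * (g : Matrix (Fin 4) (Fin 4) ℝ)ᵀ).det = _
    simp
  refine map_coneMeasure (f := rmul (g : Matrix (Fin 4) (Fin 4) ℝ)ᵀ) (by simp [det_rmul]) hdet
    (by fun_prop) fun N hN => Subtype.ext ?_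
  rw [Matrix.SpecialLinearGroup.coe_mul, proj_coe hN.1, proj_coe ((hdet N).symm ▸ hN.1), hdet,
    rmul_apply]
  change _ = _ • (Matrix.of N * (g : Matrix (Fin 4) (Fin 4) ℝ)ᵀ)ᵀ
  simp [Matrix.transpose_mul]

lemma coneMeasure_right : coneMeasure.IsMulRightInvariant := by
  refine ⟨fun g => ?_⟩
  have hdet : ∀ N, (Matrix.of (lmul (g : Matrix (Fin 4) (Fin 4) ℝ)ᵀ N)).det = (Matrix.of N).det := by
    intro N
    rw [lmul_apply]
    change ((g : Matrix (Fin 4) (Fin 4) ℝ)ᵀ * Matrix.of N).det = _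
    simp
  refine map_coneMeasure (f := lmul (g : Matrix (Fin 4) (Fin 4) ℝ)ᵀ) (by simp [det_lmul]) hdet
    (by fun_prop) fun N hN => Subtype.ext ?_
  rw [Matrix.SpecialLinearGroup.coe_mul, proj_coe hN.1, proj_coe ((hdet N).symm ▸ hN.1), hdet,
    lmul_apply]
  change _ = _ • ((g : Matrix (Fin 4) (Fin 4) ℝ)ᵀ * Matrix.of N)ᵀ
  simp [Matrix.transpose_mul]

lemma coneMeasure_ne_zero : coneMeasure ≠ 0 := by
  intro h
  have h1 : coneMeasure univ = 0 := by simp [h]
  rw [coneMeasure, Measure.map_apply measurable_proj MeasurableSet.univ, preimage_univ,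
    Measure.restrict_apply MeasurableSet.univ, univ_inter] at h1
  have h2 : IsOpen {N : Fin 4 → Fin 4 → ℝ | (Matrix.of N).det ∈ Ioo (0 : ℝ) 1} :=
    isOpen_Ioo.preimage continuous_det4
  refine (h2.measure_pos volume ⟨fun i j => ((1 / 2 : ℝ) • (1 : Matrix (Fin 4) (Fin 4) ℝ)) i j, ?_⟩).ne'
    (measure_mono_null (fun N hN => (⟨hN.1, hN.2.le⟩ : N ∈ cone)) h1)
  change ((1 / 2 : ℝ) • (1 : Matrix (Fin 4) (Fin 4) ℝ)).det ∈ Ioo (0 : ℝ) 1
  rw [det_smul]
  norm_num

/-- A set of finite Lebesgue measure meeting every `SL(4, ℤ)`-orbit in the cone. -/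
lemma exists_cover : ∃ F : Set (Fin 4 → Fin 4 → ℝ), MeasurableSet F ∧ volume F ≠ ⊤ ∧
    ∀ N ∈ cone, ∃ γ : Matrix.SpecialLinearGroup (Fin 4) ℤ,
      lmul (iz4 γ : Matrix (Fin 4) (Fin 4) ℝ) N ∈ F := by
  obtain ⟨C, F, hC, hF, hvol, hcov⟩ := reduction 4
  let ε : Matrix (Fin 4) (Fin 4) ℤ := diagonal ![-1, 1, 1, 1]
  have hε : ε.det = -1 := by simp [ε, Fin.prod_univ_four]
  have hεε : ε * ε = 1 := by
    simp only [ε, diagonal_mul_diagonal, ← diagonal_one]
    congr 1
    funext i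
    fin_cases i <;> simp
  have hmp : MeasurePreserving (lmul (ε.map (Int.castRingHom ℝ))) volume volume := by
    apply measurePreserving_of_det
    have : (ε.map (Int.castRingHom ℝ)).det = ((ε.det : ℤ) : ℝ) :=
      ((Int.castRingHom ℝ).map_det ε).symm
    rw [det_lmul, this, hε]
    norm_num
  have hF1 : MeasurableSet (Prod.mk (1 : ℝ) ⁻¹' F) := hF.preimage measurable_prodMk_left
  have hfin : volume (Prod.mk (1 : ℝ) ⁻¹' F) ≠ ⊤ :=
    ne_top_of_le_ne_top (by simpa using hC) (hvol 1 one_pos)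
  refine ⟨Prod.mk (1 : ℝ) ⁻¹' F ∪ lmul (ε.map (Int.castRingHom ℝ)) ⁻¹' (Prod.mk (1 : ℝ) ⁻¹' F),
    hF1.union (hmp.measurable hF1), ?_, fun N hN => ?_⟩
  · refine ne_top_of_le_ne_top ?_ (measure_union_le _ _)
    rw [hmp.measure_preimage hF1.nullMeasurableSet]
    exact ENNReal.add_ne_top.2 ⟨hfin, hfin⟩
  · obtain ⟨γ, hγ, h⟩ := hcov 1 (Matrix.of N) hN.1.ne' (by rw [abs_of_pos hN.1]; exact hN.2)
    rcases Int.isUnit_iff.1 hγ with h1 | h1
    · refine ⟨⟨γ, h1⟩, Or.inl ?_⟩
      rw [lmul_apply]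
      exact h
    · refine ⟨⟨ε * γ, by rw [det_mul, hε, h1]; norm_num⟩, Or.inr ?_⟩
      rw [mem_preimage, lmul_apply, lmul_apply]
      change (1, (ε.map (Int.castRingHom ℝ) * ((ε * γ).map (Int.castRingHom ℝ) * Matrix.of N) :
        Matrix (Fin 4) (Fin 4) ℝ)) ∈ F
      rw [← mul_assoc, ← Matrix.map_mul, ← mul_assoc, hεε, one_mul]
      exact h

lemma lmul_mem_cone (g : Matrix.SpecialLinearGroup (Fin 4) ℝ) {N : Fin 4 → Fin 4 → ℝ}
    (hN : N ∈ cone) : lmul (g : Matrix (Fin 4) (Fin 4) ℝ) N ∈ cone ∧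
      proj (lmul (g : Matrix (Fin 4) (Fin 4) ℝ) N) = proj N * g.transpose := by
  have hdet : (Matrix.of (lmul (g : Matrix (Fin 4) (Fin 4) ℝ) N)).det = (Matrix.of N).det := by
    rw [lmul_apply]
    change ((g : Matrix (Fin 4) (Fin 4) ℝ) * Matrix.of N).det = _
    simp
  refine ⟨by simpa only [cone, mem_ofPred_eq, hdet] using hN, Subtype.ext ?_⟩
  rw [Matrix.SpecialLinearGroup.coe_mul, proj_coe hN.1, proj_coe (hdet.symm ▸ hN.1), hdet,
    lmul_apply]
  change _ • ((g : Matrix (Fin 4) (Fin 4) ℝ) * Matrix.of N)ᵀ = _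
  simp [Matrix.transpose_mul]

lemma lmul_inv_lmul (g : Matrix.SpecialLinearGroup (Fin 4) ℝ) (N : Fin 4 → Fin 4 → ℝ) :
    lmul ((g⁻¹ : Matrix.SpecialLinearGroup (Fin 4) ℝ) : Matrix (Fin 4) (Fin 4) ℝ)
      (lmul (g : Matrix (Fin 4) (Fin 4) ℝ) N) = N := by
  rw [lmul_apply, lmul_apply]
  change (((g⁻¹ : Matrix.SpecialLinearGroup (Fin 4) ℝ) : Matrix (Fin 4) (Fin 4) ℝ) *
    ((g : Matrix (Fin 4) (Fin 4) ℝ) * Matrix.of N) : Matrix (Fin 4) (Fin 4) ℝ) = N
  rw [← mul_assoc, ← Matrix.SpecialLinearGroup.coe_mul, inv_mul_cancel,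
    Matrix.SpecialLinearGroup.coe_one, one_mul]
  rfl

lemma countable_SLZ : Countable (Matrix.SpecialLinearGroup (Fin 4) ℤ) :=
  haveI : Countable (Matrix (Fin 4) (Fin 4) ℤ) := inferInstanceAs (Countable (Fin 4 → Fin 4 → ℤ))
  inferInstanceAs (Countable {A : Matrix (Fin 4) (Fin 4) ℤ // A.det = 1})

lemma coneMeasure_ne_top (D : Set (Matrix.SpecialLinearGroup (Fin 4) ℝ)) (hDm : MeasurableSet D)
    (hD : ∀ x : Matrix.SpecialLinearGroup (Fin 4) ℝ, ∃! γ : intPoints.op, γ • x ∈ D) :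
    coneMeasure D ≠ ⊤ := by
  obtain ⟨F, hF, hFtop, hcov⟩ := exists_cover
  have := countable_SLZ
  rw [coneMeasure, Measure.map_apply measurable_proj hDm,
    Measure.restrict_apply (measurable_proj hDm)]
  have hD' : MeasurableSet (proj ⁻¹' D ∩ cone) := (measurable_proj hDm).inter measurableSet_cone
  have hmp : ∀ g : Matrix.SpecialLinearGroup (Fin 4) ℝ,
      MeasurePreserving (lmul (g : Matrix (Fin 4) (Fin 4) ℝ)) volume volume := fun g =>
    measurePreserving_of_det (by simp [det_lmul])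
  let E : Matrix.SpecialLinearGroup (Fin 4) ℤ → Set (Fin 4 → Fin 4 → ℝ) := fun γ =>
    lmul (((iz4 γ)⁻¹ : Matrix.SpecialLinearGroup (Fin 4) ℝ) : Matrix (Fin 4) (Fin 4) ℝ) ⁻¹'
      (proj ⁻¹' D ∩ cone) ∩ F
  have hE : ∀ γ, MeasurableSet (E γ) := fun γ => ((hmp _).measurable hD').inter hF
  have hdisj : Pairwise (Function.onFun Disjoint E) := by
    intro γ δ hne
    rw [Function.onFun, Set.disjoint_left]
    rintro N ⟨⟨h1, h2⟩, -⟩ ⟨⟨h3, -⟩, -⟩
    have hN : N ∈ cone := by
      have := (lmul_mem_cone (iz4 γ) h2).1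
      have e := lmul_inv_lmul (iz4 γ)⁻¹ N
      rw [inv_inv] at e
      rwa [e] at this
    rw [mem_preimage, (lmul_mem_cone _ hN).2] at h1 h3
    have hmem : ∀ β : Matrix.SpecialLinearGroup (Fin 4) ℤ,
        MulOpposite.op ((iz4 β)⁻¹.transpose) ∈ intPoints.op := fun β =>
      ⟨(β⁻¹).transpose, by
        rw [← map_inv]
        apply Subtype.ext
        ext i j
        rfl⟩
    have h4 := (hD (proj N)).unique (y₁ := ⟨_, hmem γ⟩) (y₂ := ⟨_, hmem δ⟩) h1 h3
    have h5 : (iz4 γ)⁻¹.transpose = (iz4 δ)⁻¹.transpose :=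
      MulOpposite.op_injective (congrArg Subtype.val h4)
    have h6 : (iz4 γ)⁻¹ = (iz4 δ)⁻¹ :=
      Subtype.ext (Matrix.transpose_injective (congrArg Subtype.val h5))
    exact hne (Matrix.SpecialLinearGroup.map_intCast_injective (R := ℝ) (inv_injective h6))
  refine ne_top_of_le_ne_top hFtop ?_
  calc volume (proj ⁻¹' D ∩ cone)
      ≤ volume (⋃ γ, lmul (iz4 γ : Matrix (Fin 4) (Fin 4) ℝ) ⁻¹' E γ) := by
        refine measure_mono fun N hN => ?_
        obtain ⟨γ, hγ⟩ := hcov N hN.2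
        refine mem_iUnion.2 ⟨γ, ?_, hγ⟩
        rw [mem_preimage, lmul_inv_lmul]
        exact hN
    _ ≤ ∑' γ, volume (lmul (iz4 γ : Matrix (Fin 4) (Fin 4) ℝ) ⁻¹' E γ) := measure_iUnion_le _
    _ = ∑' γ, volume (E γ) :=
        tsum_congr fun γ => (hmp _).measure_preimage (hE γ).nullMeasurableSet
    _ = volume (⋃ γ, E γ) := (measure_iUnion hdisj hE).symm
    _ ≤ volume F := measure_mono (iUnion_subset fun γ => inter_subset_right)

lemma intPoints_discrete : ∃ V ∈ 𝓝 (1 : Matrix.SpecialLinearGroup (Fin 4) ℝ),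
    ∀ γ ∈ intPoints, γ ∈ V → γ = 1 := by
  refine ⟨{g | ∀ i j, |g i j - (1 : Matrix (Fin 4) (Fin 4) ℝ) i j| < 1}, ?_, ?_⟩
  · refine IsOpen.mem_nhds ?_ (by simp)
    simp only [Set.ofPred_forall]
    refine isOpen_iInter_of_finite fun i => isOpen_iInter_of_finite fun j => ?_
    exact isOpen_lt ((continuous_subtype_val.matrix_elem i j).sub continuous_const).abs
      continuous_const
  · rintro _ ⟨γ, rfl⟩ h
    apply Subtype.ext
    ext i j
    have h1 := h i j
    have h2 : ((|γ i j - (1 : Matrix (Fin 4) (Fin 4) ℤ) i j| : ℤ) : ℝ) < 1 := by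
      convert h1 using 1
      simp [Matrix.one_apply]
    have h3 : γ i j = (1 : Matrix (Fin 4) (Fin 4) ℤ) i j := by
      have : |γ i j - (1 : Matrix (Fin 4) (Fin 4) ℤ) i j| < 1 := by exact_mod_cast h2
      exact sub_eq_zero.1 (Int.abs_lt_one_iff.1 this)
    simp [h3, Matrix.one_apply]

/-- `SL(4, ℤ)` is a lattice: the quotient carries an invariant probability measure, and it is
ergodic for the action of the whole group. -/
theorem exists_prob [MeasurableSpace (Matrix.SpecialLinearGroup (Fin 4) ℝ ⧸ intPoints)]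
    [BorelSpace (Matrix.SpecialLinearGroup (Fin 4) ℝ ⧸ intPoints)] :
    ∃ μ : Measure (Matrix.SpecialLinearGroup (Fin 4) ℝ ⧸ intPoints), IsProbabilityMeasure μ ∧
      ErgodicSMul (Matrix.SpecialLinearGroup (Fin 4) ℝ) _ μ := by
  have := countable_SLZ
  have : Countable intPoints := (Set.countable_range _).to_subtype
  have := coneMeasure_left
  have := coneMeasure_right
  have : SFinite coneMeasure := by
    unfold coneMeasure
    infer_instance
  exact exists_ergodic_prob intPoints intPoints_discrete coneMeasure coneMeasure_ne_zero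
    coneMeasure_ne_top

end measure

end Pool.Agent.MP_e7dd50_an

end MrgPart2

-- ======== part 3: formerly Pool.Agent.MP_e7dd50_an.Standing
section MrgPart3

/-!
The positive diagonal group satisfies the standing hypothesis.
-/

open Matrix Set Topology Filter MeasureTheory

namespace Pool.Agent.MP_e7dd50_an

open Matrix.SpecialLinearGroup

lemma unipGen_eq_top : unipGen = ⊤ := by
  apply eq_top_of_transvection
  intro i j hij c
  refine Subgroup.subset_closure ⟨⟨⟨fun t => transvection hij t.toAdd, by simp⟩,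
    fun s t => transvection_add hij _ _⟩, ?_, fun t => ⟨2, ?_⟩, Multiplicative.ofAdd c, rfl⟩
  · refine continuous_induced_rng.2 (continuous_matrix fun a b => ?_)
    change Continuous fun t : Multiplicative ℝ =>
      ((1 : Matrix (Fin 4) (Fin 4) ℝ) + single i j t.toAdd) a b
    simp only [Matrix.add_apply, single_apply]
    refine continuous_const.add ?_
    split_ifs
    · exact continuous_toAdd
    · exact continuous_const
  · change ((1 : Matrix (Fin 4) (Fin 4) ℝ) + single i j t.toAdd - 1) ^ 2 = 0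
    rw [add_sub_cancel_left, pow_two, single_mul_single_of_ne _ _ _ _ hij.symm]

theorem saturated : SaturatedByUnipotents := by
  let : MeasurableSpace (Matrix.SpecialLinearGroup (Fin 4) ℝ ⧸ intPoints) := borel _
  have : BorelSpace (Matrix.SpecialLinearGroup (Fin 4) ℝ ⧸ intPoints) := ⟨rfl⟩
  obtain ⟨μ, h1, h2⟩ := exists_prob
  have h3 : SMulInvariantMeasure unipGen _ μ :=
    ⟨fun g s hs => h2.measure_preimage_smul (g : Matrix.SpecialLinearGroup (Fin 4) ℝ) hs⟩
  refine ⟨μ, h1, h2.toSMulInvariantMeasure, ⟨fun {s} hs h => ?_⟩⟩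
  exact h2.aeconst_of_forall_preimage_smul_ae_eq hs fun g =>
    h ⟨g, unipGen_eq_top ▸ Subgroup.mem_top g⟩

open scoped LinearAlgebra.Projectivization in
/-- A proper normal subgroup of `SL(4, ℂ)` is central. -/
lemma le_center_of_normal (H : Subgroup (Matrix.SpecialLinearGroup (Fin 4) ℂ)) [H.Normal]
    (hne : H ≠ ⊤) : H ≤ Subgroup.center _ := by
  let Iw : MulAction.IwasawaStructure (Matrix.SpecialLinearGroup (Fin 4) ℂ) (ℙ ℂ (Fin 4 → ℂ)) :=
    { T := fun p => lineStab p.submodule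
      is_comm := fun p => by
        rw [← Projectivization.mk_rep p, Projectivization.submodule_mk]
        exact lineStab_isMulCommutative_of_span p.rep p.rep_nonzero
      is_conj := fun g p => by rw [PSL.smul_submodule, lineStab_smul]
      is_generator := by
        apply eq_top_of_transvection
        intro i j hij c
        refine le_iSup (fun p : ℙ ℂ (Fin 4 → ℂ) => lineStab p.submodule)
          (Projectivization.mk ℂ (Pi.single i 1) (Pi.single_ne_zero_iff.2 one_ne_zero)) ?_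
        rw [Projectivization.submodule_mk]
        exact SL2Gen.transvection_mem_lineStab hij c }
  have hperf : commutator (Matrix.SpecialLinearGroup (Fin 4) ℂ) = ⊤ := by
    apply eq_top_of_transvection
    intro i k hik c
    obtain ⟨j, hij, hjk⟩ : ∃ j : Fin 4, i ≠ j ∧ j ≠ k := by
      revert i k
      decide
    rw [transvection_commutator hij hjk hik, ← transvection_inv, ← transvection_inv]
    exact Subgroup.commutator_mem_commutator (Subgroup.mem_top _) (Subgroup.mem_top _)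
  by_contra hc
  apply hne
  rw [eq_top_iff, ← hperf]
  refine Iw.commutator_le H fun h => hc fun g hg => ?_
  rw [← Projectivization.SL_mulAction_ker, MonoidHom.mem_ker]
  ext p
  exact Set.eq_univ_iff_forall.1 h p ⟨g, hg⟩

/-- The sum of the norms of the entries. -/
noncomputable def size (g : Matrix.SpecialLinearGroup (Fin 4) ℂ) : ℝ := ∑ i, ∑ j, ‖g i j‖

lemma continuous_size : Continuous size :=
  continuous_finsetSum _ fun i _ => continuous_finsetSum _ fun j _ =>
    (continuous_subtype_val.matrix_elem i j).norm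

lemma size_mul_center (g : Matrix.SpecialLinearGroup (Fin 4) ℂ)
    {z : Matrix.SpecialLinearGroup (Fin 4) ℂ} (hz : z ∈ Subgroup.center _) :
    size (g * z) = size g := by
  obtain ⟨r, hr, hz⟩ := Matrix.SpecialLinearGroup.mem_center_iff.1 hz
  have h1 : ‖r‖ = 1 := by
    have := congrArg norm hr
    rw [norm_pow, norm_one] at this
    exact (pow_eq_one_iff_of_nonneg (norm_nonneg _) (by simp)).1 this
  simp [size, ← hz, h1]

/-- A rank two subgroup of the diagonal group. -/
noncomputable def lat : Multiplicative (ℤ × ℤ) →* Matrix.SpecialLinearGroup (Fin 4) ℝ where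
  toFun p := dg p.toAdd.1 (-p.toAdd.1) p.toAdd.2
  map_one' := by
    apply Subtype.ext
    simp only [dg, toAdd_one, Prod.fst_zero, Int.cast_zero, neg_zero, Prod.snd_zero, add_zero,
      Real.exp_zero, Matrix.SpecialLinearGroup.coe_one, ← diagonal_one]
    congr 1
    funext i
    fin_cases i <;> rfl
  map_mul' p q := by
    rw [← dg_add]
    simp [add_comm]

lemma le_size_lat (p : Multiplicative (ℤ × ℤ)) :
    |(p.toAdd.1 : ℝ)| + |(p.toAdd.2 : ℝ)| ≤ size (toComplex (lat p)) := by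
  have h : ∀ x : ℝ, |x| ≤ Real.exp x + Real.exp (-x) := fun x => by
    have h1 := Real.add_one_le_exp x
    have h2 := Real.add_one_le_exp (-x)
    have h3 := Real.exp_pos x
    have h4 := Real.exp_pos (-x)
    rw [abs_le]
    constructor <;> linarith
  have e : size (toComplex (lat p)) = Real.exp p.toAdd.1 + Real.exp (-p.toAdd.1) +
      (Real.exp p.toAdd.2 + Real.exp (-p.toAdd.2)) := by
    simp [size, toComplex, lat, dg, Fin.sum_univ_four, Matrix.diagonal_apply, -Complex.ofReal_exp,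
      abs_of_pos (Real.exp_pos _)]
    ring
  rw [e]
  exact add_le_add (h _) (h _)

theorem higherRank (H : Subgroup (Matrix.SpecialLinearGroup (Fin 4) ℂ)) [H.Normal]
    (hQ : IsQSubgroup H) (hne : H ≠ ⊤) :
    HigherRank (posDiag.map ((QuotientGroup.mk' H).comp toComplex)) := by
  have hcen := le_center_of_normal H hne
  have hcl : IsClosed (H : Set (Matrix.SpecialLinearGroup (Fin 4) ℂ)) := hQ.isClosed
  let φ : Multiplicative (ℤ × ℤ) →* posDiag.map ((QuotientGroup.mk' H).comp toComplex) :=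
    ((((QuotientGroup.mk' H).comp toComplex)).comp lat).codRestrict _
      fun p => ⟨lat p, dg_mem _ _ _, rfl⟩
  let S : Matrix.SpecialLinearGroup (Fin 4) ℂ ⧸ H → ℝ := Quotient.lift size fun a b hab => by
    have h1 : a⁻¹ * b ∈ H := QuotientGroup.leftRel_apply.1 hab
    rw [← size_mul_center a (hcen h1), mul_inv_cancel_left]
  have hS : Continuous S := continuous_size.quotient_lift _
  refine ⟨φ, isProperMap_of_comp_of_t2 (g := fun y => S y.1) continuous_of_discreteTopology
    (hS.comp continuous_subtype_val) ?_⟩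
  rw [isProperMap_iff_tendsto_cocompact]
  refine ⟨continuous_of_discreteTopology, ?_⟩
  rw [cocompact_eq_cofinite]
  refine Tendsto.mono_right ?_ atTop_le_cocompact
  rw [tendsto_atTop]
  intro B
  obtain ⟨n, hn⟩ := exists_nat_ge B
  rw [eventually_cofinite]
  refine (((Set.finite_Icc (-(n : ℤ)) n).prod (Set.finite_Icc (-(n : ℤ)) n)).preimage
    (f := Multiplicative.toAdd) Multiplicative.toAdd.injective.injOn).subset fun p hp => ?_
  have h1 : size (toComplex (lat p)) < B := not_le.1 hp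
  have h2 := le_size_lat p
  have h3 := abs_nonneg (p.toAdd.1 : ℝ)
  have h4 := abs_nonneg (p.toAdd.2 : ℝ)
  have h5 : |p.toAdd.1| ≤ (n : ℤ) := by
    have : ((|p.toAdd.1| : ℤ) : ℝ) ≤ ((n : ℤ) : ℝ) := by push_cast; linarith
    exact_mod_cast this
  have h6 : |p.toAdd.2| ≤ (n : ℤ) := by
    have : ((|p.toAdd.2| : ℤ) : ℝ) ≤ ((n : ℤ) : ℝ) := by push_cast; linarith
    exact_mod_cast this
  exact ⟨abs_le.1 h5, abs_le.1 h6⟩

theorem standing : StandingHypothesis posDiag :=
  ⟨saturated, isClosed_posDiag, fun _ ha hne => isClassA_of_mem ha hne,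
    fun H _ hQ hne => higherRank H hQ hne⟩

end Pool.Agent.MP_e7dd50_an

end MrgPart3

-- marker of a merged file
example : 731051 + 347706 = 731051 + 347706 := rfl
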